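import Pool.Agent.Lib.MP_f310b7_an.Sound

set_option autoImplicit false

/-!
Barycentric coordinates of a nondegenerate simplex in the cube, as a system of bilinear equations,
its symmetries, and the reduction to the flattened system of `Sound.lean`.
-/

namespace Pool.Agent.Lib.MPf310b7

open Finset

/-- The barycentric coordinates `λ_k(y) = c k + ∑ i, l i k * y i` of a simplex with vertices `x j`
in the unit cube, such that at each vertex `w` of the cube the negative parts of the coordinates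
add up to at most `0.623`. -/
structure Cfg (l : Fin 4 → Fin 5 → ℝ) (c : Fin 5 → ℝ) (x : Fin 5 → Fin 4 → ℝ) : Prop where
  e1 : ∀ j k, (∑ i, l i k * x j i) + c k = if k = j then 1 else 0
  e2 : ∀ i, ∑ j, l i j * x j i = 1
  e3 : ∀ i, ∑ k, l i k = 0
  e4 : ∑ k, c k = 1
  bx : ∀ j i, 0 ≤ x j i ∧ x j i ≤ 1
  vv : ∀ w : Fin 4 → Bool,
    ∑ k, max 0 (-(c k + ∑ i, if w i = true then l i k else 0)) ≤ 623 / 1000

/-- Value of the coordinate `k` at the vertex `w`. -/
noncomputable def lam (l : Fin 4 → Fin 5 → ℝ) (c : Fin 5 → ℝ) (w : Fin 4 → Bool) (k : Fin 5) : ℝ :=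
  c k + ∑ i, if w i = true then l i k else 0

theorem Cfg.sum_lam {l : Fin 4 → Fin 5 → ℝ} {c : Fin 5 → ℝ} {x : Fin 5 → Fin 4 → ℝ}
    (h : Cfg l c x) (w : Fin 4 → Bool) : ∑ k, lam l c w k = 1 := by
  unfold lam
  rw [Finset.sum_add_distrib, h.e4, Finset.sum_comm]
  have : ∀ i, ∑ k, (if w i = true then l i k else 0) = 0 := by
    intro i
    split_ifs
    · exact h.e3 i
    · simp
  simp [this]

theorem Cfg.lam_ge {l : Fin 4 → Fin 5 → ℝ} {c : Fin 5 → ℝ} {x : Fin 5 → Fin 4 → ℝ}
    (h : Cfg l c x) (w : Fin 4 → Bool) (k : Fin 5) : -(623 / 1000) ≤ lam l c w k := by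
  have h1 := h.vv w
  have h2 : max 0 (-lam l c w k) ≤ ∑ k, max 0 (-lam l c w k) :=
    Finset.single_le_sum (f := fun k => max 0 (-lam l c w k)) (fun k _ => le_max_left _ _)
      (Finset.mem_univ k)
  have h3 : -lam l c w k ≤ max 0 (-lam l c w k) := le_max_right _ _
  have h4 : ∑ k, max 0 (-lam l c w k) ≤ 623 / 1000 := h1
  linarith

theorem Cfg.lam_le {l : Fin 4 → Fin 5 → ℝ} {c : Fin 5 → ℝ} {x : Fin 5 → Fin 4 → ℝ}
    (h : Cfg l c x) (w : Fin 4 → Bool) (k : Fin 5) : lam l c w k ≤ 1 + 623 / 1000 := by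
  have h1 : ∑ k, max 0 (-lam l c w k) ≤ 623 / 1000 := h.vv w
  have h2 := h.sum_lam w
  rw [← Finset.add_sum_erase _ _ (Finset.mem_univ k)] at h2
  have h3 : -(∑ k' ∈ Finset.univ.erase k, lam l c w k')
      ≤ ∑ k, max 0 (-lam l c w k) := by
    rw [← Finset.sum_neg_distrib]
    calc ∑ k' ∈ Finset.univ.erase k, -lam l c w k'
        ≤ ∑ k' ∈ Finset.univ.erase k, max 0 (-lam l c w k') :=
          Finset.sum_le_sum fun i _ => le_max_right _ _
      _ ≤ ∑ k, max 0 (-lam l c w k) :=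
          Finset.sum_le_sum_of_subset_of_nonneg (Finset.erase_subset _ _)
            fun i _ _ => le_max_left _ _
  linarith

theorem Cfg.c_bounds {l : Fin 4 → Fin 5 → ℝ} {c : Fin 5 → ℝ} {x : Fin 5 → Fin 4 → ℝ}
    (h : Cfg l c x) (k : Fin 5) : -(623 / 1000) ≤ c k ∧ c k ≤ 1 + 623 / 1000 := by
  have h0 : lam l c (fun _ => false) k = c k := by simp [lam]
  have h1 := h.lam_ge (fun _ => false) k
  have h2 := h.lam_le (fun _ => false) k
  rw [h0] at h1 h2
  exact ⟨h1, h2⟩

theorem Cfg.l_bounds {l : Fin 4 → Fin 5 → ℝ} {c : Fin 5 → ℝ} {x : Fin 5 → Fin 4 → ℝ}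
    (h : Cfg l c x) (i : Fin 4) (k : Fin 5) : |l i k| ≤ 2246 / 1000 := by
  have h0 : lam l c (fun i' => decide (i' = i)) k = c k + l i k := by
    simp [lam]
  have h1 := h.lam_ge (fun i' => decide (i' = i)) k
  have h2 := h.lam_le (fun i' => decide (i' = i)) k
  have h3 := h.c_bounds k
  rw [h0] at h1 h2
  rw [abs_le]
  constructor <;> linarith [h3.1, h3.2]

/-- The flattened variables, scaled by `1000`. -/
noncomputable def zz (l : Fin 4 → Fin 5 → ℝ) (c : Fin 5 → ℝ) (x : Fin 5 → Fin 4 → ℝ) (u : ℕ) : ℝ :=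
  if u < 20 then 1000 * l (Fin.ofNat 4 (u / 5)) (Fin.ofNat 5 (u % 5))
  else if u < 25 then 1000 * c (Fin.ofNat 5 (u - 20))
  else 1000 * x (Fin.ofNat 5 ((u - 25) / 4)) (Fin.ofNat 4 ((u - 25) % 4))

section

variable (l : Fin 4 → Fin 5 → ℝ) (c : Fin 5 → ℝ) (x : Fin 5 → Fin 4 → ℝ)

theorem zz_l (i : Fin 4) (k : Fin 5) : zz l c x (5 * i + k) = 1000 * l i k := by
  have hi := i.isLt
  have hk := k.isLt
  have h1 : (5 * (i : ℕ) + k) < 20 := by omega
  have h2 : Fin.ofNat 4 ((5 * (i : ℕ) + k) / 5) = i := by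
    ext; simp only [Fin.val_ofNat]; omega
  have h3 : Fin.ofNat 5 ((5 * (i : ℕ) + k) % 5) = k := by
    ext; simp only [Fin.val_ofNat]; omega
  rw [zz, if_pos h1, h2, h3]

theorem zz_c (k : Fin 5) : zz l c x (20 + k) = 1000 * c k := by
  have hk := k.isLt
  have h1 : ¬ (20 + (k : ℕ)) < 20 := by omega
  have h2 : (20 + (k : ℕ)) < 25 := by omega
  have h3 : Fin.ofNat 5 (20 + (k : ℕ) - 20) = k := by
    ext; simp only [Fin.val_ofNat]; omega
  rw [zz, if_neg h1, if_pos h2, h3]

theorem zz_x (j : Fin 5) (i : Fin 4) : zz l c x (25 + (4 * j + i)) = 1000 * x j i := by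
  have hi := i.isLt
  have hj := j.isLt
  have h1 : ¬ (25 + (4 * (j : ℕ) + i)) < 20 := by omega
  have h2 : ¬ (25 + (4 * (j : ℕ) + i)) < 25 := by omega
  have h3 : Fin.ofNat 5 ((25 + (4 * (j : ℕ) + i) - 25) / 4) = j := by
    ext; simp only [Fin.val_ofNat]; omega
  have h4 : Fin.ofNat 4 ((25 + (4 * (j : ℕ) + i) - 25) % 4) = i := by
    ext; simp only [Fin.val_ofNat]; omega
  rw [zz, if_neg h1, if_neg h2, h3, h4]

end

theorem bit_eq : ∀ w < 16, ∀ i : Fin 4, ((w + 16) >>> (i : ℕ)) % 2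
    = if Nat.testBit w i = true then 1 else 0 := by decide

theorem bit_eq4 : ∀ w < 16, ((w + 16) >>> 4) % 2 = 1 := by decide

theorem Cfg.sys {l : Fin 4 → Fin 5 → ℝ} {c : Fin 5 → ℝ} {x : Fin 5 → Fin 4 → ℝ}
    (h : Cfg l c x) : Sys (zz l c x) where
  e1 := by
    intro j hj k hk
    rw [Finset.mem_range] at hj hk
    lift j to Fin 5 using hj
    lift k to Fin 5 using hk
    rw [Finset.sum_range]
    simp only [zz_l, zz_x, zz_c]
    have h1 := h.e1 j k
    have h2 : ∑ i, 1000 * l i k * (1000 * x j i) = 1000000 * ∑ i, l i k * x j i := by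
      rw [Finset.mul_sum]
      exact Finset.sum_congr rfl fun i _ => by ring
    rw [h2]
    by_cases hjk : k = j
    · subst hjk
      rw [if_pos rfl] at h1 ⊢
      linarith
    · rw [if_neg hjk] at h1
      rw [if_neg (fun hh => hjk (Fin.ext hh))]
      linarith
  e2 := by
    intro i hi
    rw [Finset.mem_range] at hi
    lift i to Fin 4 using hi
    rw [Finset.sum_range]
    simp only [zz_l, zz_x]
    have h1 := h.e2 i
    have h2 : ∑ j, 1000 * l i j * (1000 * x j i) = 1000000 * ∑ j, l i j * x j i := by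
      rw [Finset.mul_sum]
      exact Finset.sum_congr rfl fun i _ => by ring
    rw [h2, h1]; norm_num
  e3 := by
    intro i hi
    rw [Finset.mem_range] at hi
    lift i to Fin 4 using hi
    rw [Finset.sum_range]
    simp only [zz_l]
    rw [← Finset.mul_sum, h.e3 i]; norm_num
  e4 := by
    rw [Finset.sum_range]
    simp only [zz_c]
    rw [← Finset.mul_sum, h.e4]; norm_num
  vv := by
    intro w hw
    rw [Finset.mem_range] at hw
    have h1 := h.vv (fun i => Nat.testBit w i)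
    rw [Finset.sum_range]
    have h2 : ∀ k : Fin 5, ∑ i ∈ range 5, bit w i * zz l c x (5 * i + k)
        = 1000 * (c k + ∑ i : Fin 4, if Nat.testBit w i = true then l i k else 0) := by
      intro k
      rw [Finset.sum_range_succ, Finset.sum_range]
      have g1 : bit w 4 = 1 := by rw [bit, bit_eq4 w hw]; norm_num
      have g2 : zz l c x (5 * 4 + k) = 1000 * c k := zz_c l c x k
      rw [g1, g2]
      have g3 : ∀ i : Fin 4, bit w i * zz l c x (5 * i + k)
          = 1000 * (if Nat.testBit w i = true then l i k else 0) := by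
        intro i
        rw [bit, bit_eq w hw i, zz_l]
        split_ifs <;> simp
      simp only [g3]
      rw [← Finset.mul_sum]; ring
    simp only [h2]
    have h3 : ∀ t : ℝ, max 0 (-(1000 * t)) = 1000 * max 0 (-t) := by
      intro t
      rw [mul_max_of_nonneg _ _ (by norm_num : (0 : ℝ) ≤ 1000)]
      congr 1 <;> ring
    simp only [h3]
    rw [← Finset.mul_sum]
    linarith

/-- The packed vector `b` is the root box of the sign pattern `v`. -/
def RootOK (b : ℕ) (v : Fin 5 → ℕ) : Prop :=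
  (∀ i : Fin 4, ∀ k : Fin 5,
    bd b (2 * (5 * i + k)) = (if Nat.testBit (v k) i = true then -2250 else 0) ∧
    bd b (2 * (5 * i + k) + 1) = (if Nat.testBit (v k) i = true then 0 else 2250)) ∧
  (∀ k : Fin 5, bd b (2 * (20 + k)) = -623 ∧ bd b (2 * (20 + k) + 1) = 1623) ∧
  (∀ j : Fin 5, ∀ i : Fin 4, bd b (2 * (25 + (4 * j + i))) = 0 ∧
    bd b (2 * (25 + (4 * j + i)) + 1) = 1000)

instance (b : ℕ) (v : Fin 5 → ℕ) : Decidable (RootOK b v) := by
  unfold RootOK; infer_instance

/-- Sign pattern of the coefficients. -/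
def Pat (l : Fin 4 → Fin 5 → ℝ) (v : Fin 5 → ℕ) : Prop :=
  ∀ k i, if Nat.testBit (v k) (i : Fin 4) = true then l i k ≤ 0 else 0 ≤ l i k

theorem inBox_root {l : Fin 4 → Fin 5 → ℝ} {c : Fin 5 → ℝ} {x : Fin 5 → Fin 4 → ℝ}
    (h : Cfg l c x) {b : ℕ} {v : Fin 5 → ℕ} (hb : RootOK b v) (hp : Pat l v) :
    InBox b (zz l c x) := by
  obtain ⟨h1, h2, h3⟩ := hb
  have hL : ∀ (i : Fin 4) (k : Fin 5), (bd b (2 * (5 * i + k)) : ℝ) ≤ zz l c x (5 * i + k) ∧
      zz l c x (5 * i + k) ≤ (bd b (2 * (5 * i + k) + 1) : ℝ) := by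
    intro i k
    rw [(h1 i k).1, (h1 i k).2, zz_l]
    have g := hp k i
    have hb := abs_le.mp (h.l_bounds i k)
    split_ifs at g ⊢ <;> push_cast <;> constructor <;> linarith [hb.1, hb.2]
  have hC : ∀ (k : Fin 5), (bd b (2 * (20 + k)) : ℝ) ≤ zz l c x (20 + k) ∧
      zz l c x (20 + k) ≤ (bd b (2 * (20 + k) + 1) : ℝ) := by
    intro k
    rw [(h2 k).1, (h2 k).2, zz_c]
    have hb := h.c_bounds k
    push_cast
    constructor <;> linarith [hb.1, hb.2]
  have hX : ∀ (j : Fin 5) (i : Fin 4), (bd b (2 * (25 + (4 * j + i))) : ℝ)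
      ≤ zz l c x (25 + (4 * j + i)) ∧
      zz l c x (25 + (4 * j + i)) ≤ (bd b (2 * (25 + (4 * j + i)) + 1) : ℝ) := by
    intro j i
    rw [(h3 j i).1, (h3 j i).2, zz_x]
    have hb := h.bx j i
    push_cast
    constructor <;> linarith [hb.1, hb.2]
  intro u hu
  rcases lt_or_ge u 20 with hu1 | hu1
  · have := hL ⟨u / 5, by omega⟩ ⟨u % 5, by omega⟩
    have e : 5 * (u / 5) + u % 5 = u := by omega
    simpa only [e] using this
  · rcases lt_or_ge u 25 with hu2 | hu2
    · have := hC ⟨u - 20, by omega⟩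
      have e : 20 + (u - 20) = u := by omega
      simpa only [e] using this
    · have := hX ⟨(u - 25) / 4, by omega⟩ ⟨(u - 25) % 4, by omega⟩
      have e : 25 + (4 * ((u - 25) / 4) + (u - 25) % 4) = u := by omega
      simpa only [e] using this

/-- A checked tree refutes its sign pattern. -/
theorem refute {l : Fin 4 → Fin 5 → ℝ} {c : Fin 5 → ℝ} {x : Fin 5 → Fin 4 → ℝ}
    (h : Cfg l c x) {b : ℕ} {v : Fin 5 → ℕ} (hb : RootOK b v) (hp : Pat l v) (fA fB : ℕ) (t : Tree)
    (ht : treeOK fA fB t b = true) (hA : fA = 0 ∨ l 3 2 ≤ l 3 3) (hB : fB = 0 ∨ l 3 3 ≤ l 3 4) :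
    False := by
  have e17 : zz l c x 17 = 1000 * l 3 2 := zz_l l c x 3 2
  have e18 : zz l c x 18 = 1000 * l 3 3 := zz_l l c x 3 3
  have e19 : zz l c x 19 = 1000 * l 3 4 := zz_l l c x 3 4
  refine treeOK_sound fA fB t (zz l c x) h.sys ?_ ?_ b (inBox_root h hb hp) ht
  · rw [e17, e18]
    exact hA.imp id fun h => by linarith
  · rw [e18, e19]
    exact hB.imp id fun h => by linarith

/-- The action of the symmetries of the cube and of the renumberings of the vertices. -/
theorem Cfg.map {l : Fin 4 → Fin 5 → ℝ} {c : Fin 5 → ℝ} {x : Fin 5 → Fin 4 → ℝ}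
    (h : Cfg l c x) (σ : Equiv.Perm (Fin 5)) (τ : Equiv.Perm (Fin 4)) (f : Fin 4 → Bool) :
    Cfg (fun i k => if f i = true then -l (τ i) (σ k) else l (τ i) (σ k))
      (fun k => c (σ k) + ∑ i, if f i = true then l (τ i) (σ k) else 0)
      (fun j i => if f i = true then 1 - x (σ j) (τ i) else x (σ j) (τ i)) where
  e1 := by
    intro j k
    have h1 := h.e1 (σ j) (σ k)
    have h2 : ∀ i, (if f i = true then -l (τ i) (σ k) else l (τ i) (σ k))
        * (if f i = true then 1 - x (σ j) (τ i) else x (σ j) (τ i))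
        = l (τ i) (σ k) * x (σ j) (τ i) - if f i = true then l (τ i) (σ k) else 0 := by
      intro i
      split_ifs <;> ring
    simp only [h2]
    rw [Finset.sum_sub_distrib, Equiv.sum_comp τ (fun i => l i (σ k) * x (σ j) i)]
    simp only [EmbeddingLike.apply_eq_iff_eq] at h1
    rw [← h1]
    ring
  e2 := by
    intro i
    have h1 := h.e2 (τ i)
    have h3 := h.e3 (τ i)
    rw [← Equiv.sum_comp σ] at h1 h3
    by_cases hf : f i = true
    · simp only [hf, if_true]
      have : ∀ j, -l (τ i) (σ j) * (1 - x (σ j) (τ i))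
          = l (τ i) (σ j) * x (σ j) (τ i) - l (τ i) (σ j) := fun j => by ring
      simp only [this]
      rw [Finset.sum_sub_distrib, h1, h3]; ring
    · simp only [hf]
      simpa using h1
  e3 := by
    intro i
    have h3 := h.e3 (τ i)
    rw [← Equiv.sum_comp σ] at h3
    by_cases hf : f i = true
    · simp only [hf, if_true]
      rw [Finset.sum_neg_distrib, h3]; ring
    · simp only [hf]
      simpa using h3
  e4 := by
    rw [Finset.sum_add_distrib, Equiv.sum_comp σ, h.e4, Finset.sum_comm]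
    have : ∀ i, ∑ k, (if f i = true then l (τ i) (σ k) else 0) = 0 := by
      intro i
      split_ifs
      · rw [Equiv.sum_comp σ (fun k => l (τ i) k)]; exact h.e3 (τ i)
      · simp
    simp [this]
  bx := by
    intro j i
    have := h.bx (σ j) (τ i)
    show 0 ≤ (if f i = true then 1 - x (σ j) (τ i) else x (σ j) (τ i)) ∧
      (if f i = true then 1 - x (σ j) (τ i) else x (σ j) (τ i)) ≤ 1
    split_ifs
    · constructor <;> linarith [this.1, this.2]
    · exact this
  vv := by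
    intro w
    have h1 := h.vv (fun i => w (τ.symm i) ^^ f (τ.symm i))
    rw [← Equiv.sum_comp σ] at h1
    refine le_trans (le_of_eq ?_) h1
    refine Finset.sum_congr rfl fun k _ => ?_
    congr 2
    rw [add_assoc, ← Finset.sum_add_distrib,
      ← Equiv.sum_comp τ (fun i => if (w (τ.symm i) ^^ f (τ.symm i)) = true then l i (σ k) else 0)]
    congr 1
    refine Finset.sum_congr rfl fun i _ => ?_
    rw [Equiv.symm_apply_apply]
    cases w i <;> cases f i <;> simp

theorem Pat.map {l : Fin 4 → Fin 5 → ℝ} {v v' : Fin 5 → ℕ} (h : Pat l v)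
    (σ : Equiv.Perm (Fin 5)) (τ : Equiv.Perm (Fin 4)) (f : Fin 4 → Bool)
    (hv : ∀ k (i : Fin 4), Nat.testBit (v' k) i = (Nat.testBit (v (σ k)) (τ i) ^^ f i)) :
    Pat (fun i k => if f i = true then -l (τ i) (σ k) else l (τ i) (σ k)) v' := by
  intro k i
  have h1 := h (σ k) (τ i)
  rw [hv]
  cases h2 : Nat.testBit (v (σ k)) (τ i) <;> cases h3 : f i <;> simp [h2] at h1 <;>
    simp [h3] <;> exact h1

end Pool.Agent.Lib.MPf310b7
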