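import Mathlib

set_option autoImplicit false

/-!
Integer certificates for the infeasibility of a system of bilinear equations, and their checker.
The checker is written with recursors and raw `Nat`/`Int` operations, so that the kernel evaluates it
quickly.
-/

namespace Pool.Agent.Lib.MPf310b7

/-- `sumN n f = f 0 + ... + f (n-1)`. -/
noncomputable def sumN (n : ℕ) (f : ℕ → ℤ) : ℤ := Nat.rec 0 (fun k s => Int.add s (f k)) n

/-- `sumP n f = f 0 + ... + f (n-1)` for natural numbers. -/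
noncomputable def sumP (n : ℕ) (f : ℕ → ℕ) : ℕ := Nat.rec 0 (fun k s => Nat.add s (f k)) n

/-- `maxN n f` is the maximum of `0` and `f 0, ..., f (n-1)`. -/
noncomputable def maxN (n : ℕ) (f : ℕ → ℕ) : ℕ :=
  Nat.rec 0 (fun k s => Nat.add s (Nat.sub (f k) s)) n

/-- Field number `k` of width `W` of `c`, as a natural number (`P = 2 ^ W`, the first `o` bits of `c`
are skipped). -/
def fldN (c W P k : ℕ) : ℕ := Nat.mod (Nat.shiftRight c (Nat.mul W k)) P

/-- Field number `k` of width `W` of `c`, as an integer with offset `H`. -/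
def fldZ (c W P H k : ℕ) : ℤ := Int.subNatNat (fldN c W P k) H

/-- Bounds of the variables: `bd b (2*u)` is the lower bound of the variable `u`, and
`bd b (2*u+1)` its upper bound. -/
def bd (b n : ℕ) : ℤ := Int.subNatNat (Nat.mod (Nat.shiftRight b (Nat.mul 16 n)) 65536) 32768

/-- Replace field `n` of `b` by `p`. -/
def setF (b n p : ℕ) : ℕ :=
  Nat.xor b (Nat.shiftLeft (Nat.xor (Nat.mod (Nat.shiftRight b (Nat.mul 16 n)) 65536) p)
    (Nat.mul 16 n))

section leaf

variable (mu1 : ℕ → ℕ → ℤ) (mu2 : ℕ → ℤ) (mu0 : ℕ → ℕ → ℤ) (nu : ℕ → ℤ)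
  (th : ℕ → ℕ → ℕ → ℕ) (rho : ℕ → ℕ → ℕ) (sA sB : ℕ) (lo hi : ℕ → ℤ)

/-- The coefficient of the product `z (5i+k) * z (25+4j+i)`. -/
def qq (j i k : ℕ) : ℤ :=
  Int.add (Int.add (mu1 j k) (bif Nat.beq k j then mu2 i else 0)) (mu0 j i)

/-- `y * a`, with a shortcut for `y = 0`. -/
noncomputable def mulN (y : ℕ) (a : ℤ) : ℤ :=
  Nat.rec 0 (fun m _ => Int.mul (Int.ofNat (Nat.succ m)) a) y

/-- First McCormick coefficient (that of `x`), for `l ∈ [a, b]`. -/
noncomputable def mcA (q : ℤ) (t : ℕ) (a b : ℤ) : ℤ :=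
  Int.rec (fun n => Int.add (mulN (Nat.sub n (Nat.sub n t)) b) (mulN (Nat.sub n t) a))
    (fun m => Int.neg (Int.add (mulN (Nat.sub (Nat.succ m) (Nat.sub (Nat.succ m) t)) a)
      (mulN (Nat.sub (Nat.succ m) t) b))) q

/-- Second McCormick coefficient (that of `l - b`), for `x ∈ [c, d]`. -/
noncomputable def mcB (q : ℤ) (t : ℕ) (c d : ℤ) : ℤ :=
  Int.rec (fun n => mulN (Nat.sub n (Nat.sub n t)) c)
    (fun m => Int.neg (mulN (Nat.sub (Nat.succ m) t) d)) q

/-- Third McCormick coefficient (that of `l - a`), for `x ∈ [c, d]`. -/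
noncomputable def mcC (q : ℤ) (t : ℕ) (c d : ℤ) : ℤ :=
  Int.rec (fun n => mulN (Nat.sub n t) d)
    (fun m => Int.neg (mulN (Nat.sub (Nat.succ m) (Nat.sub (Nat.succ m) t)) c)) q

/-- Upper bound of `r * z` for `z ∈ [a, b]`. -/
noncomputable def linB (r a b : ℤ) : ℤ :=
  Int.rec (fun n => Int.mul (Int.ofNat n) b) (fun m => Int.mul (Int.negSucc m) a) r

/-- Multiplier rows of the symmetry constraints `z 17 ≤ z 18 ≤ z 19`. -/
def symC (u : ℕ) : ℤ :=
  bif Nat.beq u 17 then Int.neg (Int.ofNat sA) else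
    bif Nat.beq u 18 then Int.subNatNat sA sB else
      bif Nat.beq u 19 then Int.ofNat sB else 0

/-- Coefficient of `z (5i+k)` from the linear constraints. -/
noncomputable def rl (i k : ℕ) : ℤ :=
  Int.add (Int.add (Int.ofNat (Nat.mul 1000 (sumP 16 fun w =>
      Nat.mul (Nat.mod (Nat.shiftRight (Nat.add w 16) i) 2) (rho w k)))) (nu i))
    (symC sA sB (Nat.add (Nat.mul 5 i) k))

/-- Coefficient of `z (5i+k) - hi (5i+k)`. -/
noncomputable def b1 (i k : ℕ) : ℤ :=
  sumN 5 fun j => mcB (qq mu1 mu2 mu0 j i k) (th j i k)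
        (lo (Nat.add 25 (Nat.add (Nat.mul 4 j) i))) (hi (Nat.add 25 (Nat.add (Nat.mul 4 j) i)))

/-- Coefficient of `z (5i+k) - lo (5i+k)`. -/
noncomputable def b2 (i k : ℕ) : ℤ :=
  sumN 5 fun j => mcC (qq mu1 mu2 mu0 j i k) (th j i k)
        (lo (Nat.add 25 (Nat.add (Nat.mul 4 j) i))) (hi (Nat.add 25 (Nat.add (Nat.mul 4 j) i)))

/-- Upper bound of `r * z + x * (z - b) + y * (z - a)` for `z ∈ [a, b]`. -/
noncomputable def linC (r x y a b : ℤ) : ℤ :=
  Int.rec (fun _ => Int.add (Int.mul r b) (Int.mul y (Int.sub b a)))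
    (fun _ => Int.sub (Int.mul r a) (Int.mul x (Int.sub b a))) (Int.add r (Int.add x y))

/-- Coefficient of `z (25+4j+i)`. -/
noncomputable def sx (j i : ℕ) : ℤ :=
  sumN 5 fun k => mcA (qq mu1 mu2 mu0 j i k) (th j i k)
    (lo (Nat.add (Nat.mul 5 i) k)) (hi (Nat.add (Nat.mul 5 i) k))

/-- Constant term. -/
noncomputable def kk : ℤ :=
    (Int.sub (Int.ofNat (Nat.mul 623000 (sumP 16 fun w => (maxN 5 fun k => rho w k))))
      (Int.add (Int.mul 1000000 (Int.add (sumN 5 fun j => mu1 j j) (sumN 4 fun i => mu2 i)))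
        (Int.mul 1000 (nu 4))))

/-- The upper bound. -/
noncomputable def uu : ℤ :=
  Int.add (Int.add (Int.add (kk mu1 mu2 nu rho)
    (sumN 5 fun k => linB (Int.add (rl nu rho sA sB 4 k) (Int.mul 1000 (sumN 5 fun j => mu1 j k)))
      (lo (Nat.add 20 k)) (hi (Nat.add 20 k))))
    (sumN 4 fun i => sumN 5 fun k => linC (rl nu rho sA sB i k) (b1 mu1 mu2 mu0 th lo hi i k)
      (b2 mu1 mu2 mu0 th lo hi i k)
      (lo (Nat.add (Nat.mul 5 i) k)) (hi (Nat.add (Nat.mul 5 i) k))))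
    (sumN 5 fun j => sumN 4 fun i => linB (sx mu1 mu2 mu0 th lo hi j i)
      (lo (Nat.add 25 (Nat.add (Nat.mul 4 j) i))) (hi (Nat.add 25 (Nat.add (Nat.mul 4 j) i))))

end leaf

/-- Evaluate `n` before `f n`. -/
noncomputable def force (n : ℕ) (f : ℕ → Bool) : Bool := Nat.rec (f 0) (fun m _ => f (Nat.succ m)) n

/-- Leaf check for decoded parameters. -/
noncomputable def leafOK' (fA fB b c' c W P H : ℕ) : Bool :=
  Int.rec (fun _ => false) (fun _ => true)
    (uu
      (fun j k => fldZ c' W P H (Nat.add (Nat.mul 5 j) k))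
      (fun i => fldZ c' W P H (Nat.add 25 i))
      (fun j i => fldZ c' W P H (Nat.add 29 (Nat.add (Nat.mul 4 j) i)))
      (fun i => fldZ c 40 1099511627776 549755813888 i)
      (fun j i k => fldN c' W P (Nat.add 49 (Nat.add (Nat.mul 20 j) (Nat.add (Nat.mul 5 i) k))))
      (fun w k => fldN c' W P (Nat.add 149 (Nat.add (Nat.mul 5 w) k)))
      (Nat.mul fA (fldN c 40 1099511627776 5))
      (Nat.mul fB (fldN c 40 1099511627776 6))
      (fun u => bd b (Nat.mul 2 u)) (fun u => bd b (Nat.add (Nat.mul 2 u) 1)))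

/-- Leaf check. -/
noncomputable def leafOK (fA fB b c : ℕ) : Bool :=
  leafOK' fA fB b (Nat.shiftRight c 288) (Nat.shiftRight c 8) (Nat.mod c 256) (Nat.pow 2 (Nat.mod c 256)) (Nat.pow 2 (Nat.sub (Nat.mod c 256) 1)) 

/-- Refutation trees. -/
inductive Tree : Type
  | leaf (c : ℕ) : Tree
  | split (u p : ℕ) (l r : Tree) : Tree

/-- Tree check. -/
noncomputable def treeOK (fA fB : ℕ) (t : Tree) : ℕ → Bool :=
  Tree.rec (fun c b => leafOK fA fB b c)
    (fun u p _ _ ihl ihr b => and (Nat.blt p 65536)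
      (and (ihl (setF b (Nat.add (Nat.mul 2 u) 1) p))
        (ihr (setF b (Nat.mul 2 u) p)))) t

end Pool.Agent.Lib.MPf310b7
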