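import Pool.Agent.Lib.MP_f310b7_an.Main

set_option autoImplicit false

/-! From nondegenerate simplices in the cube to the system of `Cfg.lean`, and the two constants. -/

namespace Pool.Agent.Lib.MPf310b7

open Finset

/-- Barycentric coordinates of a nondegenerate simplex, with coefficients. -/
theorem exists_coords (v : Fin 5 → (Fin 4 → ℝ)) (hv : AffineIndependent ℝ v) :
    ∃ (l : Fin 4 → Fin 5 → ℝ) (c : Fin 5 → ℝ),
      (∀ j k, (∑ i, l i k * v j i) + c k = if k = j then 1 else 0) ∧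
      (∀ i i', ∑ j, l i j * v j i' = if i = i' then 1 else 0) ∧
      (∀ i, ∑ j, c j * v j i = 0) ∧ (∀ i, ∑ k, l i k = 0) ∧ ∑ k, c k = 1 := by
  have htop : affineSpan ℝ (Set.range v) = ⊤ := by
    rw [hv.affineSpan_eq_top_iff_card_eq_finrank_add_one]
    simp
  let b : AffineBasis (Fin 5) ℝ (Fin 4 → ℝ) := ⟨v, hv, htop⟩
  have hb : ∀ j, b j = v j := fun j => rfl
  have hdec : ∀ k (y : Fin 4 → ℝ), b.coord k y
      = (∑ i, (b.coord k).linear (Pi.single i 1) * y i) + b.coord k 0 := by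
    intro k y
    have h1 : b.coord k y = (b.coord k).linear y + b.coord k 0 := by
      have := congrFun (b.coord k).decomp y
      simpa using this
    have h2 : (b.coord k).linear y = ∑ i, (b.coord k).linear (Pi.single i 1) * y i := by
      conv_lhs => rw [LinearMap.pi_apply_eq_sum_univ]
      refine Finset.sum_congr rfl fun i _ => ?_
      rw [smul_eq_mul, mul_comm]
      congr 2
      funext j
      simp [Pi.single_apply, eq_comm]
    rw [h1, h2]
  have hlin : ∀ k i, (b.coord k).linear (Pi.single i 1)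
      = b.coord k (Pi.single i 1) - b.coord k 0 := by
    intro k i
    have h1 : b.coord k (Pi.single i 1) = (b.coord k).linear (Pi.single i 1) + b.coord k 0 := by
      have := congrFun (b.coord k).decomp (Pi.single i 1)
      simpa using this
    rw [h1]; ring
  have hsum : ∀ y : Fin 4 → ℝ, ∑ k, b.coord k y = 1 := fun y => b.sum_coord_apply_eq_one y
  have hcomb : ∀ y : Fin 4 → ℝ, ∀ i, ∑ k, b.coord k y * v k i = y i := by
    intro y i
    have := congrFun (b.linear_combination_coord_eq_self y) i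
    simpa [hb] using this
  refine ⟨fun i k => (b.coord k).linear (Pi.single i 1), fun k => b.coord k 0, ?_, ?_, ?_, ?_, ?_⟩
  · intro j k
    rw [← hdec k (v j), ← hb j, b.coord_apply]
  · intro i i'
    simp only [hlin, sub_mul, Finset.sum_sub_distrib, hcomb]
    simp [Pi.single_apply, eq_comm]
  · intro i
    simpa using hcomb 0 i
  · intro i
    simp only [hlin, Finset.sum_sub_distrib, hsum, sub_self]
  · exact hsum 0

/-- A vertex of the cube as a point. -/
def pt (w : Fin 4 → Bool) (i : Fin 4) : ℝ := if w i = true then 1 else 0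

theorem pt_mem (w : Fin 4 → Bool) : pt w ∈ Set.Icc (0 : Fin 4 → ℝ) 1 := by
  constructor <;> intro i <;> unfold pt <;> split_ifs <;> simp

/-- At some vertex of the cube the negative parts of the coordinates add up to more than `0.623`. -/
theorem exists_vertex (v : Fin 5 → (Fin 4 → ℝ)) (hm : ∀ j, v j ∈ Set.Icc (0 : Fin 4 → ℝ) 1)
    (l : Fin 4 → Fin 5 → ℝ) (c : Fin 5 → ℝ)
    (h1 : ∀ j k, (∑ i, l i k * v j i) + c k = if k = j then 1 else 0)
    (h2 : ∀ i i', ∑ j, l i j * v j i' = if i = i' then 1 else 0)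
    (h4 : ∀ i, ∑ k, l i k = 0) (h5 : ∑ k, c k = 1) :
    ∃ w : Fin 4 → Bool, 623 / 1000 < ∑ k, max 0 (-(c k + ∑ i, l i k * pt w i)) := by
  by_contra hcon
  push Not at hcon
  refine no_cfg l c v ⟨h1, fun i => by simpa using h2 i i, h4, h5, fun j i => ⟨(hm j).1 i, (hm j).2 i⟩,
    fun w => ?_⟩
  refine le_trans (le_of_eq ?_) (hcon w)
  refine Finset.sum_congr rfl fun k _ => ?_
  congr 3
  refine Finset.sum_congr rfl fun i _ => ?_
  unfold pt
  split_ifs <;> simp

/-- The set of values of the projector. -/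
def valSet (v : Fin 5 → (Fin 4 → ℝ)) : Set ℝ :=
  {t : ℝ | ∃ f : (Fin 4 → ℝ) → ℝ, ContinuousOn f (Set.Icc (0 : Fin 4 → ℝ) 1) ∧
              (∀ y ∈ Set.Icc (0 : Fin 4 → ℝ) 1, |f y| ≤ 1) ∧
              ∃ x ∈ Set.Icc (0 : Fin 4 → ℝ) 1, ∃ l : Fin 5 → ℝ,
                ∑ j, l j = 1 ∧ ∑ j, l j • v j = x ∧ t = |∑ j, f (v j) * l j|}

theorem valSet_bdd (v : Fin 5 → (Fin 4 → ℝ)) (hv : AffineIndependent ℝ v)
    (hm : ∀ j, v j ∈ Set.Icc (0 : Fin 4 → ℝ) 1) : BddAbove (valSet v) := by
  obtain ⟨l, c, h1, h2, h3, h4, h5⟩ := exists_coords v hv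
  refine ⟨∑ j, (|c j| + ∑ i, |l i j|), ?_⟩
  rintro t ⟨f, -, hf, x, hx, a, ha1, ha2, rfl⟩
  have hcoord : ∀ j, a j = (∑ i, l i j * x i) + c j := by
    intro j
    have e1 : ∀ i, x i = ∑ k, a k * v k i := by
      intro i; rw [← ha2]; simp
    have e2 : ∑ k, a k * ((∑ i, l i j * v k i) + c j) = a j := by
      simp only [h1]
      simp
    rw [← e2]
    simp only [mul_add, Finset.sum_add_distrib, e1]
    rw [← Finset.sum_mul, ha1, one_mul]
    congr 1
    simp only [Finset.mul_sum]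
    rw [Finset.sum_comm]
    refine Finset.sum_congr rfl fun i _ => Finset.sum_congr rfl fun k _ => by ring
  calc |∑ j, f (v j) * a j| ≤ ∑ j, |f (v j) * a j| := Finset.abs_sum_le_sum_abs _ _
    _ ≤ ∑ j, (|c j| + ∑ i, |l i j|) := by
        refine Finset.sum_le_sum fun j _ => ?_
        rw [abs_mul]
        have g1 : |f (v j)| * |a j| ≤ 1 * |a j| :=
          mul_le_mul_of_nonneg_right (hf _ (hm j)) (abs_nonneg _)
        refine g1.trans ?_
        rw [one_mul, hcoord j, add_comm]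
        refine (abs_add_le _ _).trans (add_le_add le_rfl ?_)
        refine (Finset.abs_sum_le_sum_abs _ _).trans (Finset.sum_le_sum fun i _ => ?_)
        rw [abs_mul]
        have : |x i| ≤ 1 := abs_le.mpr ⟨by have := hx.1 i; simp at this; linarith, hx.2 i⟩
        calc |l i j| * |x i| ≤ |l i j| * 1 := mul_le_mul_of_nonneg_left this (abs_nonneg _)
          _ = |l i j| := mul_one _

theorem val_lower (v : Fin 5 → (Fin 4 → ℝ)) (hv : AffineIndependent ℝ v)
    (hm : ∀ j, v j ∈ Set.Icc (0 : Fin 4 → ℝ) 1) : 2246 / 1000 ≤ sSup (valSet v) := by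
  obtain ⟨l, c, h1, h2, h3, h4, h5⟩ := exists_coords v hv
  obtain ⟨w, hw⟩ := exists_vertex v hm l c h1 h2 h4 h5
  set a : Fin 5 → ℝ := fun k => c k + ∑ i, l i k * pt w i with ha
  set s : Fin 5 → ℝ := fun k => if 0 ≤ a k then 1 else -1 with hs
  set g : (Fin 4 → ℝ) → ℝ := fun y => ∑ k, s k * ((∑ i, l i k * y i) + c k) with hg
  have hgc : Continuous g := by
    rw [hg]; fun_prop
  have hgv : ∀ j, g (v j) = s j := by
    intro j
    rw [hg]
    simp only [h1]
    simp
  have hsabs : ∀ k, s k = 1 ∨ s k = -1 := by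
    intro k; rw [hs]; by_cases h : 0 ≤ a k <;> simp [h]
  have hsum1 : ∑ k, a k = 1 := by
    rw [ha]
    simp only [Finset.sum_add_distrib, h5]
    rw [Finset.sum_comm]
    simp only [← Finset.sum_mul, h4]
    simp
  have hcomb : ∑ k, a k • v k = pt w := by
    funext i'
    simp only [Finset.sum_apply, Pi.smul_apply, smul_eq_mul]
    rw [ha]
    simp only [add_mul, Finset.sum_add_distrib, h3, zero_add, Finset.sum_mul]
    rw [Finset.sum_comm]
    have : ∀ i, ∑ k, l i k * pt w i * v k i' = pt w i * (if i = i' then 1 else 0) := by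
      intro i
      rw [← h2 i i', Finset.mul_sum]
      exact Finset.sum_congr rfl fun k _ => by ring
    simp only [this]
    simp
  have habs : ∀ k, s k * a k = a k + 2 * max 0 (-a k) := by
    intro k
    rw [hs]
    by_cases h : 0 ≤ a k
    · simp [h]
    · have h' : 0 ≤ -a k := by linarith
      simp only [h, if_false, max_eq_right h']; ring
  have hval : ∑ k, s k * a k = 1 + 2 * ∑ k, max 0 (-a k) := by
    simp only [habs]
    rw [Finset.sum_add_distrib, hsum1, Finset.mul_sum]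
  have hmem : 1 + 2 * ∑ k, max 0 (-a k) ∈ valSet v := by
    refine ⟨fun y => max (-1) (min 1 (g y)), ?_, ?_, pt w, pt_mem w, a, hsum1, hcomb, ?_⟩
    · exact (continuous_const.max (continuous_const.min hgc)).continuousOn
    · intro y _
      rw [abs_le]
      exact ⟨le_max_left _ _, max_le (by norm_num) (min_le_left _ _)⟩
    · have : ∀ j, max (-1) (min 1 (g (v j))) = s j := by
        intro j
        rw [hgv j]
        rcases hsabs j with h | h <;> rw [h] <;> norm_num
      simp only [this]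
      rw [hval, abs_of_nonneg]
      have : 0 ≤ ∑ k, max 0 (-a k) := Finset.sum_nonneg fun k _ => le_max_left _ _
      linarith
  refine le_trans ?_ (le_csSup (valSet_bdd v hv hm) hmem)
  have : 623 / 1000 < ∑ k, max 0 (-a k) := hw
  linarith

/-- The vertices of an explicit simplex. -/
noncomputable def v0 : Fin 5 → (Fin 4 → ℝ) :=
  ![![1, 1 / 2, 1 / 2, 0], ![0, 1, 1, 10 / 43], ![33 / 43, 0, 1, 1], ![0, 0, 0, 10 / 43],
    ![33 / 43, 1, 0, 1]]

/-- Its barycentric coordinates. -/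
noncomputable def m0 (y : Fin 4 → ℝ) : Fin 5 → ℝ :=
  ![43 / 53 * y 0 - 43 / 53 * y 3 + 10 / 53,
    -1849 / 3498 * y 0 + 1 / 2 * y 1 + 1 / 2 * y 2 - 215 / 1749 * y 3 + 50 / 1749,
    215 / 1749 * y 0 - 1 / 2 * y 1 + 1 / 2 * y 2 + 1849 / 3498 * y 3 - 215 / 1749,
    -1849 / 3498 * y 0 - 1 / 2 * y 1 - 1 / 2 * y 2 - 215 / 1749 * y 3 + 1799 / 1749,
    215 / 1749 * y 0 + 1 / 2 * y 1 - 1 / 2 * y 2 + 1849 / 3498 * y 3 - 215 / 1749]

theorem m0_sum (y : Fin 4 → ℝ) : ∑ j, m0 y j = 1 := by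
  simp only [m0, Fin.sum_univ_five]
  simp
  ring

theorem m0_comb (y : Fin 4 → ℝ) : ∑ j, m0 y j • v0 j = y := by
  funext i
  simp only [Finset.sum_apply, Pi.smul_apply, smul_eq_mul, Fin.sum_univ_five]
  fin_cases i <;> simp [m0, v0] <;> ring

theorem m0_ge (y : Fin 4 → ℝ) (hy : y ∈ Set.Icc (0 : Fin 4 → ℝ) 1) (j : Fin 5) :
    -(2179 / 3498) ≤ m0 y j := by
  have a0 := hy.1 0
  have a1 := hy.1 1
  have a2 := hy.1 2
  have a3 := hy.1 3
  have b0 := hy.2 0
  have b1 := hy.2 1
  have b2 := hy.2 2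
  have b3 := hy.2 3
  simp only [Pi.zero_apply, Pi.one_apply] at a0 a1 a2 a3 b0 b1 b2 b3
  fin_cases j <;> simp [m0] <;> linarith

theorem v0_mem (j : Fin 5) : v0 j ∈ Set.Icc (0 : Fin 4 → ℝ) 1 := by
  constructor <;> intro i <;> fin_cases j <;> fin_cases i <;> simp [v0] <;> norm_num

theorem v0_indep : AffineIndependent ℝ v0 := by
  rw [affineIndependent_iff_of_fintype]
  intro w hw0 hw
  rw [Finset.weightedVSub_eq_linear_combination (s := Finset.univ) hw0] at hw
  have e : ∀ i, ∑ j, w j * v0 j i = 0 := by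
    intro i
    have := congrFun hw i
    simpa using this
  have e0 := e 0
  have e1 := e 1
  have e2 := e 2
  have e3 := e 3
  simp [v0, Fin.sum_univ_five] at e0 e1 e2 e3
  rw [Fin.sum_univ_five] at hw0
  intro j
  fin_cases j <;> simp <;> linarith

end Pool.Agent.Lib.MPf310b7
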