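import Pool.Agent.Lib.MP_f310b7_an.DataA
import Pool.Agent.Lib.MP_f310b7_an.DataB
import Pool.Agent.Lib.MP_f310b7_an.DataC
import Pool.Agent.Lib.MP_f310b7_an.DataD

set_option autoImplicit false

/-! The system of `Cfg.lean` has no solution. -/

namespace Pool.Agent.Lib.MPf310b7

open Finset

theorem class24' {l : Fin 4 → Fin 5 → ℝ} {c : Fin 5 → ℝ} {x : Fin 5 → Fin 4 → ℝ}
    (h : Cfg l c x) (hp : Pat l (fun k => rep 24 k)) : False := by
  rcases le_total (l 3 3) (l 3 4) with hle | hle
  · exact class24 h hp hle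
  · have h1 := h.map (Equiv.swap 3 4) (Equiv.swap 0 1) (fun _ => false)
    have h2 := hp.map (v' := fun k => rep 24 k) (Equiv.swap 3 4) (Equiv.swap 0 1) (fun _ => false)
      (by decide)
    refine class24 h1 h2 ?_
    have e1 : (Equiv.swap (0 : Fin 4) 1) 3 = 3 := by decide
    have e2 : (Equiv.swap (3 : Fin 5) 4) 3 = 4 := by decide
    have e3 : (Equiv.swap (3 : Fin 5) 4) 4 = 3 := by decide
    simp only [e1, e2, e3]
    simpa using hle

theorem class26a {l : Fin 4 → Fin 5 → ℝ} {c : Fin 5 → ℝ} {x : Fin 5 → Fin 4 → ℝ}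
    (h : Cfg l c x) (hp : Pat l (fun k => rep 26 k)) (σ : Equiv.Perm (Fin 5))
    (τ : Equiv.Perm (Fin 4))
    (hv : ∀ (k : Fin 5) (i : Fin 4), Nat.testBit (rep 26 k) i
      = (Nat.testBit (rep 26 (σ k)) (τ i) ^^ false))
    (hτ : τ 3 = 3) (hA : l 3 (σ 2) ≤ l 3 (σ 3)) (hB : l 3 (σ 3) ≤ l 3 (σ 4)) : False := by
  have h1 := h.map σ τ (fun _ => false)
  have h2 := hp.map (v' := fun k => rep 26 k) σ τ (fun _ => false) hv
  refine class26 h1 h2 ?_ ?_
  · simp only [hτ]; simpa using hA
  · simp only [hτ]; simpa using hB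

theorem class26' {l : Fin 4 → Fin 5 → ℝ} {c : Fin 5 → ℝ} {x : Fin 5 → Fin 4 → ℝ}
    (h : Cfg l c x) (hp : Pat l (fun k => rep 26 k)) : False := by
  rcases le_total (l 3 2) (l 3 3) with hab | hab <;> rcases le_total (l 3 3) (l 3 4) with hbc | hbc
  · exact class26 h hp hab hbc
  · rcases le_total (l 3 2) (l 3 4) with hac | hac
    · exact class26a h hp (Equiv.swap 3 4) (Equiv.swap 1 2) (by decide) (by decide)
        (by simpa [show (Equiv.swap (3 : Fin 5) 4) 2 = 2 by decide,
          show (Equiv.swap (3 : Fin 5) 4) 3 = 4 by decide] using hac)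
        (by simpa [show (Equiv.swap (3 : Fin 5) 4) 3 = 4 by decide,
          show (Equiv.swap (3 : Fin 5) 4) 4 = 3 by decide] using hbc)
    · exact class26a h hp (Equiv.swap 3 4 * Equiv.swap 2 3) (Equiv.swap 1 2 * Equiv.swap 0 1)
        (by decide) (by decide)
        (by
          rw [show (Equiv.swap (3 : Fin 5) 4 * Equiv.swap 2 3 : Equiv.Perm (Fin 5)) 2 = 4 by decide,
            show (Equiv.swap (3 : Fin 5) 4 * Equiv.swap 2 3 : Equiv.Perm (Fin 5)) 3 = 2 by decide]
          exact hac)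
        (by
          rw [show (Equiv.swap (3 : Fin 5) 4 * Equiv.swap 2 3 : Equiv.Perm (Fin 5)) 3 = 2 by decide,
            show (Equiv.swap (3 : Fin 5) 4 * Equiv.swap 2 3 : Equiv.Perm (Fin 5)) 4 = 3 by decide]
          exact hab)
  · rcases le_total (l 3 2) (l 3 4) with hac | hac
    · exact class26a h hp (Equiv.swap 2 3) (Equiv.swap 0 1) (by decide) (by decide)
        (by
          rw [show (Equiv.swap (2 : Fin 5) 3) 2 = 3 by decide,
            show (Equiv.swap (2 : Fin 5) 3) 3 = 2 by decide]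
          exact hab)
        (by
          rw [show (Equiv.swap (2 : Fin 5) 3) 3 = 2 by decide,
            show (Equiv.swap (2 : Fin 5) 3) 4 = 4 by decide]
          exact hac)
    · exact class26a h hp (Equiv.swap 2 3 * Equiv.swap 3 4) (Equiv.swap 0 1 * Equiv.swap 1 2)
        (by decide) (by decide)
        (by
          rw [show (Equiv.swap (2 : Fin 5) 3 * Equiv.swap 3 4 : Equiv.Perm (Fin 5)) 2 = 3 by decide,
            show (Equiv.swap (2 : Fin 5) 3 * Equiv.swap 3 4 : Equiv.Perm (Fin 5)) 3 = 4 by decide]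
          exact hbc)
        (by
          rw [show (Equiv.swap (2 : Fin 5) 3 * Equiv.swap 3 4 : Equiv.Perm (Fin 5)) 3 = 4 by decide,
            show (Equiv.swap (2 : Fin 5) 3 * Equiv.swap 3 4 : Equiv.Perm (Fin 5)) 4 = 2 by decide]
          exact hac)
  · exact class26a h hp (Equiv.swap 2 4) (Equiv.swap 0 2) (by decide) (by decide)
      (by
        rw [show (Equiv.swap (2 : Fin 5) 4) 2 = 4 by decide,
          show (Equiv.swap (2 : Fin 5) 4) 3 = 3 by decide]
        exact hbc)
      (by
        rw [show (Equiv.swap (2 : Fin 5) 4) 3 = 3 by decide,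
          show (Equiv.swap (2 : Fin 5) 4) 4 = 2 by decide]
        exact hab)

/-- No representative is the sign pattern of a solution. -/
theorem no_class {l : Fin 4 → Fin 5 → ℝ} {c : Fin 5 → ℝ} {x : Fin 5 → Fin 4 → ℝ}
    (h : Cfg l c x) (cl : ℕ) (hcl : cl < 27) (hp : Pat l (fun k => rep cl k)) : False := by
  interval_cases cl
  · exact class0 h hp
  · exact class1 h hp
  · exact class2 h hp
  · exact class3 h hp
  · exact class4 h hp
  · exact class5 h hp
  · exact class6 h hp
  · exact class7 h hp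
  · exact class8 h hp
  · exact class9 h hp
  · exact class10 h hp
  · exact class11 h hp
  · exact class12 h hp
  · exact class13 h hp
  · exact class14 h hp
  · exact class15 h hp
  · exact class16 h hp
  · exact class17 h hp
  · exact class18 h hp
  · exact class19 h hp
  · exact class20 h hp
  · exact class21 h hp
  · exact class22 h hp
  · exact class23 h hp
  · exact class24' h hp
  · exact class25 h hp
  · exact class26' h hp

/-- The sign pattern. -/
noncomputable def pat (l : Fin 4 → Fin 5 → ℝ) (k : Fin 5) (i : Fin 4) : Bool := decide (l i k < 0)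

theorem Cfg.sum_pat {l : Fin 4 → Fin 5 → ℝ} {c : Fin 5 → ℝ} {x : Fin 5 → Fin 4 → ℝ}
    (h : Cfg l c x) : 3 ≤ ∑ k, -lam l c (pat l k) k := by
  have h1 : ∀ k, lam l c (pat l k) k = c k + ∑ i, min (l i k) 0 := by
    intro k
    unfold lam
    congr 1
    refine Finset.sum_congr rfl fun i _ => ?_
    unfold pat
    by_cases hlt : l i k < 0
    · rw [if_pos (by simpa using hlt), min_eq_left hlt.le]
    · rw [if_neg (by simpa using hlt), min_eq_right (not_lt.mp hlt)]
  have h2 : ∀ i, ∑ k, min (l i k) 0 ≤ -1 := by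
    intro i
    have g1 : ∑ k, max (l i k) 0 + ∑ k, min (l i k) 0 = 0 := by
      rw [← Finset.sum_add_distrib]
      refine Eq.trans (Finset.sum_congr rfl fun k _ => ?_) (h.e3 i)
      rw [max_add_min, add_zero]
    have g2 : 1 ≤ ∑ k, max (l i k) 0 := by
      rw [← h.e2 i]
      refine Finset.sum_le_sum fun k _ => ?_
      have hx := h.bx k i
      calc l i k * x k i ≤ max (l i k) 0 * x k i :=
            mul_le_mul_of_nonneg_right (le_max_left _ _) hx.1
        _ ≤ max (l i k) 0 * 1 := mul_le_mul_of_nonneg_left hx.2 (le_max_right _ _)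
        _ = max (l i k) 0 := mul_one _
    linarith
  rw [Finset.sum_neg_distrib]
  have h3 : ∑ k, lam l c (pat l k) k = 1 + ∑ i, ∑ k, min (l i k) 0 := by
    simp only [h1]
    rw [Finset.sum_add_distrib, h.e4, Finset.sum_comm]
  have h4 : ∑ i, ∑ k, min (l i k) 0 ≤ ∑ _i : Fin 4, (-1 : ℝ) := Finset.sum_le_sum fun i _ => h2 i
  rw [h3]
  simp at h4
  linarith

theorem Cfg.pat_inj {l : Fin 4 → Fin 5 → ℝ} {c : Fin 5 → ℝ} {x : Fin 5 → Fin 4 → ℝ}
    (h : Cfg l c x) : Function.Injective (pat l) := by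
  intro k1 k2 hk
  by_contra hne
  have hM : ∀ w, ∑ k, max 0 (-lam l c w k) ≤ 623 / 1000 := h.vv
  have h1 : -lam l c (pat l k1) k1 + -lam l c (pat l k2) k2 ≤ 623 / 1000 := by
    rw [← hk]
    calc -lam l c (pat l k1) k1 + -lam l c (pat l k1) k2
        ≤ max 0 (-lam l c (pat l k1) k1) + max 0 (-lam l c (pat l k1) k2) :=
          add_le_add (le_max_right _ _) (le_max_right _ _)
      _ = ∑ k ∈ {k1, k2}, max 0 (-lam l c (pat l k1) k) := by rw [Finset.sum_pair hne]
      _ ≤ ∑ k, max 0 (-lam l c (pat l k1) k) :=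
          Finset.sum_le_sum_of_subset_of_nonneg (Finset.subset_univ _)
            fun i _ _ => le_max_left _ _
      _ ≤ 623 / 1000 := hM _
  have h2 : ∀ k, -lam l c (pat l k) k ≤ 623 / 1000 := by
    intro k
    have := h.lam_ge (pat l k) k
    linarith
  have h3 := h.sum_pat
  rw [← Finset.add_sum_erase _ _ (Finset.mem_univ k1),
    ← Finset.add_sum_erase _ _ (Finset.mem_erase.mpr ⟨Ne.symm hne, Finset.mem_univ k2⟩)] at h3
  have h4 : ∑ k ∈ (Finset.univ.erase k1).erase k2, -lam l c (pat l k) k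
      ≤ ((Finset.univ.erase k1).erase k2).card • (623 / 1000 : ℝ) :=
    Finset.sum_le_card_nsmul _ _ _ fun k _ => h2 k
  have h5 : ((Finset.univ.erase k1).erase k2).card = 3 := by
    rw [Finset.card_erase_of_mem (Finset.mem_erase.mpr ⟨Ne.symm hne, Finset.mem_univ k2⟩),
      Finset.card_erase_of_mem (Finset.mem_univ k1)]
    simp
  rw [h5, nsmul_eq_mul] at h4
  push_cast at h4
  linarith

/-- The system has no solution. -/
theorem no_cfg (l : Fin 4 → Fin 5 → ℝ) (c : Fin 5 → ℝ) (x : Fin 5 → Fin 4 → ℝ) :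
    ¬ Cfg l c x := by
  intro h
  obtain ⟨cl, hcl, σ, τ, f, hh⟩ := exists_sym (pat l) h.pat_inj
  have hp : Pat l (fun k => code (pat l k)) := by
    intro k i
    simp only [code_testBit]
    unfold pat
    by_cases hlt : l i k < 0
    · rw [if_pos (by simpa using hlt)]; exact hlt.le
    · rw [if_neg (by simpa using hlt)]; exact not_lt.mp hlt
  refine no_class (h.map σ τ f) cl hcl (hp.map (v' := fun k => rep cl k) σ τ f ?_)
  intro k i
  simp only [code_testBit]
  exact hh k i

end Pool.Agent.Lib.MPf310b7
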