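import Pool.Agent.Lib.MP_f310b7_an.Check

set_option autoImplicit false

/-! Soundness of the checker of `Check.lean`. -/

namespace Pool.Agent.Lib.MPf310b7

open Finset

theorem sumN_eq (n : ℕ) (f : ℕ → ℤ) : sumN n f = ∑ k ∈ range n, f k := by
  induction n with
  | zero => rfl
  | succ n ih => rw [Finset.sum_range_succ, ← ih]; rfl

theorem sumP_eq (n : ℕ) (f : ℕ → ℕ) : sumP n f = ∑ k ∈ range n, f k := by
  induction n with
  | zero => rfl
  | succ n ih => rw [Finset.sum_range_succ, ← ih]; rfl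

theorem maxN_succ (n : ℕ) (f : ℕ → ℕ) : maxN (n + 1) f = maxN n f + (f n - maxN n f) := rfl

theorem le_maxN (n : ℕ) (f : ℕ → ℕ) : ∀ k < n, f k ≤ maxN n f := by
  induction n with
  | zero => intro k hk; omega
  | succ n ih =>
    intro k hk
    rw [maxN_succ]
    rcases Nat.lt_succ_iff_lt_or_eq.mp hk with h | h
    · have := ih k h; omega
    · subst h; omega

theorem mulN_eq (y : ℕ) (a : ℤ) : mulN y a = (y : ℤ) * a := by
  cases y with
  | zero => simp [mulN]
  | succ m => rfl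

theorem qq_eq (mu1 : ℕ → ℕ → ℤ) (mu2 : ℕ → ℤ) (mu0 : ℕ → ℕ → ℤ) (j i k : ℕ) :
    qq mu1 mu2 mu0 j i k = mu1 j k + (if k = j then mu2 i else 0) + mu0 j i := by
  have h : (bif Nat.beq k j then mu2 i else 0) = (if k = j then mu2 i else 0) := by
    by_cases h : k = j
    · subst h; simp
    · have : Nat.beq k j = false := by
        rw [← Bool.not_eq_true]; intro hh; exact h (Nat.eq_of_beq_eq_true hh)
      simp [h, this]
  show mu1 j k + (bif Nat.beq k j then mu2 i else 0) + mu0 j i = _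
  rw [h]

/-- The McCormick inequality. -/
theorem mc_sound (q : ℤ) (t : ℕ) (a b c d : ℤ) (l x : ℝ) (ha : (a : ℝ) ≤ l) (hb : l ≤ b)
    (hc : (c : ℝ) ≤ x) (hd : x ≤ d) :
    (q : ℝ) * (l * x) ≤ (mcA q t a b : ℝ) * x + (mcB q t c d : ℝ) * (l - b)
      + (mcC q t c d : ℝ) * (l - a) := by
  have h1 : 0 ≤ ((b : ℝ) - l) * (x - c) := mul_nonneg (by linarith) (by linarith)
  have h2 : 0 ≤ (l - (a : ℝ)) * (d - x) := mul_nonneg (by linarith) (by linarith)
  have h3 : 0 ≤ (l - (a : ℝ)) * (x - c) := mul_nonneg (by linarith) (by linarith)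
  have h4 : 0 ≤ ((b : ℝ) - l) * (d - x) := mul_nonneg (by linarith) (by linarith)
  rcases q with n | m
  · have e1 : mcA (Int.ofNat n) t a b = mulN (n - (n - t)) b + mulN (n - t) a := rfl
    have e2 : mcB (Int.ofNat n) t c d = mulN (n - (n - t)) c := rfl
    have e3 : mcC (Int.ofNat n) t c d = mulN (n - t) d := rfl
    rw [e1, e2, e3]
    simp only [mulN_eq]
    obtain ⟨y1, hy1⟩ : ∃ y1, y1 = n - (n - t) := ⟨_, rfl⟩
    obtain ⟨y2, hy2⟩ : ∃ y2, y2 = n - t := ⟨_, rfl⟩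
    have hn : n = y1 + y2 := by omega
    rw [← hy1, ← hy2, hn]
    push_cast [Int.ofNat_eq_natCast]
    have g1 := mul_nonneg (Nat.cast_nonneg (α := ℝ) y1) h1
    have g2 := mul_nonneg (Nat.cast_nonneg (α := ℝ) y2) h2
    nlinarith [g1, g2]
  · have e1 : mcA (Int.negSucc m) t a b
        = -(mulN (m + 1 - (m + 1 - t)) a + mulN (m + 1 - t) b) := rfl
    have e2 : mcB (Int.negSucc m) t c d = -(mulN (m + 1 - t) d) := rfl
    have e3 : mcC (Int.negSucc m) t c d = -(mulN (m + 1 - (m + 1 - t)) c) := rfl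
    rw [e1, e2, e3]
    simp only [mulN_eq]
    obtain ⟨y3, hy3⟩ : ∃ y3, y3 = m + 1 - (m + 1 - t) := ⟨_, rfl⟩
    obtain ⟨y4, hy4⟩ : ∃ y4, y4 = m + 1 - t := ⟨_, rfl⟩
    have hn : ((m : ℝ) + 1) = y3 + y4 := by
      have : m + 1 = y3 + y4 := by omega
      exact_mod_cast this
    rw [← hy3, ← hy4]
    rw [Int.negSucc_eq]
    push_cast
    rw [hn]
    have g1 := mul_nonneg (Nat.cast_nonneg (α := ℝ) y3) h3
    have g2 := mul_nonneg (Nat.cast_nonneg (α := ℝ) y4) h4
    nlinarith [g1, g2]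

theorem linB_sound (r a b : ℤ) (z : ℝ) (ha : (a : ℝ) ≤ z) (hb : z ≤ b) :
    (r : ℝ) * z ≤ (linB r a b : ℝ) := by
  rcases r with n | m
  · have e1 : linB (Int.ofNat n) a b = (n : ℤ) * b := rfl
    rw [e1]
    push_cast [Int.ofNat_eq_natCast]
    exact mul_le_mul_of_nonneg_left hb (Nat.cast_nonneg n)
  · have e1 : linB (Int.negSucc m) a b = Int.negSucc m * a := rfl
    rw [e1, Int.negSucc_eq]
    push_cast
    have : (0 : ℝ) ≤ (m : ℝ) + 1 := by positivity
    nlinarith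

theorem linC_sound (r x y a b : ℤ) (z : ℝ) (ha : (a : ℝ) ≤ z) (hb : z ≤ b) :
    (r : ℝ) * z + ((x : ℝ) * (z - b) + (y : ℝ) * (z - a)) ≤ (linC r x y a b : ℝ) := by
  have key : linC r x y a b = if 0 ≤ r + (x + y) then r * b + y * (b - a)
      else r * a - x * (b - a) := by
    show (Int.rec (fun _ => r * b + y * (b - a)) (fun _ => r * a - x * (b - a))
      (r + (x + y)) : ℤ) = _
    rcases h : r + (x + y) with n | m
    · simp
    · simp
  rw [key]
  split_ifs with h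
  · have h' : (0 : ℝ) ≤ r + (x + y) := by exact_mod_cast h
    push_cast
    nlinarith
  · have h' : (r + (x + y) : ℝ) ≤ 0 := by
      have : r + (x + y) ≤ 0 := by omega
      exact_mod_cast this
    push_cast
    nlinarith

/-- The bit `i` of `w`, where bit 4 is always one for `w < 16`. -/
noncomputable def bit (w i : ℕ) : ℝ := ((((w + 16) >>> i) % 2 : ℕ) : ℝ)

/-- The system, scaled by `1000`. -/
structure Sys (z : ℕ → ℝ) : Prop where
  e1 : ∀ j ∈ range 5, ∀ k ∈ range 5, (∑ i ∈ range 4, z (5 * i + k) * z (25 + (4 * j + i)))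
    + 1000 * z (20 + k) = if k = j then 1000000 else 0
  e2 : ∀ i ∈ range 4, (∑ j ∈ range 5, z (5 * i + j) * z (25 + (4 * j + i))) = 1000000
  e3 : ∀ i ∈ range 4, (∑ k ∈ range 5, z (5 * i + k)) = 0
  e4 : (∑ k ∈ range 5, z (20 + k)) = 1000
  vv : ∀ w ∈ range 16, (∑ k ∈ range 5, max 0 (-∑ i ∈ range 5, bit w i * z (5 * i + k))) ≤ 623

theorem symC_sum (sA sB : ℕ) (z : ℕ → ℝ) :
    ∑ i ∈ range 5, ∑ k ∈ range 5, (symC sA sB (5 * i + k) : ℝ) * z (5 * i + k)
      = (sA : ℝ) * (z 18 - z 17) + (sB : ℝ) * (z 19 - z 18) := by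
  have h17 : (symC sA sB 17 : ℝ) = -(sA : ℝ) := by
    have : symC sA sB 17 = -(sA : ℤ) := rfl
    rw [this]; push_cast; rfl
  have h18 : (symC sA sB 18 : ℝ) = (sA : ℝ) - sB := by
    have : symC sA sB 18 = Int.subNatNat sA sB := rfl
    rw [this, Int.subNatNat_eq_coe]; push_cast; rfl
  have h19 : (symC sA sB 19 : ℝ) = (sB : ℝ) := by
    have : symC sA sB 19 = (sB : ℤ) := rfl
    rw [this]; push_cast; rfl
  have h0 : ∀ u, u ≠ 17 → u ≠ 18 → u ≠ 19 → symC sA sB u = 0 := by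
    intro u h1 h2 h3
    have e1 : Nat.beq u 17 = false := by
      rw [← Bool.not_eq_true]; intro hh; exact h1 (Nat.eq_of_beq_eq_true hh)
    have e2 : Nat.beq u 18 = false := by
      rw [← Bool.not_eq_true]; intro hh; exact h2 (Nat.eq_of_beq_eq_true hh)
    have e3 : Nat.beq u 19 = false := by
      rw [← Bool.not_eq_true]; intro hh; exact h3 (Nat.eq_of_beq_eq_true hh)
    simp [symC, e1, e2, e3]
  simp only [Finset.sum_range_succ, Finset.sum_range_zero]
  norm_num [h0, h17, h18, h19]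
  ring

/-- Soundness of the leaf check, for abstract parameters. -/
theorem leaf_sound (mu1 : ℕ → ℕ → ℤ) (mu2 : ℕ → ℤ) (mu0 : ℕ → ℕ → ℤ) (nu : ℕ → ℤ)
    (th : ℕ → ℕ → ℕ → ℕ) (rho : ℕ → ℕ → ℕ) (sA sB : ℕ) (lo hi : ℕ → ℤ) (z : ℕ → ℝ)
    (hz : Sys z) (hlo : ∀ u < 45, (lo u : ℝ) ≤ z u) (hhi : ∀ u < 45, z u ≤ (hi u : ℝ))
    (hA : 0 ≤ (sA : ℝ) * (z 18 - z 17)) (hB : 0 ≤ (sB : ℝ) * (z 19 - z 18)) :
    0 ≤ uu mu1 mu2 mu0 nu th rho sA sB lo hi := by
  -- the bilinear part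
  have hbil : ∑ j ∈ range 5, ∑ i ∈ range 4, ∑ k ∈ range 5,
      (qq mu1 mu2 mu0 j i k : ℝ) * (z (5 * i + k) * z (25 + (4 * j + i)))
      ≤ ∑ j ∈ range 5, ∑ i ∈ range 4, (sx mu1 mu2 mu0 th lo hi j i : ℝ) * z (25 + (4 * j + i))
        + ∑ i ∈ range 4, ∑ k ∈ range 5,
          ((b1 mu1 mu2 mu0 th lo hi i k : ℝ) * (z (5 * i + k) - hi (5 * i + k))
          + (b2 mu1 mu2 mu0 th lo hi i k : ℝ) * (z (5 * i + k) - lo (5 * i + k))) := by
    have h1 : ∀ j ∈ range 5, ∀ i ∈ range 4, ∀ k ∈ range 5,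
        (qq mu1 mu2 mu0 j i k : ℝ) * (z (5 * i + k) * z (25 + (4 * j + i)))
        ≤ (mcA (qq mu1 mu2 mu0 j i k) (th j i k) (lo (5 * i + k)) (hi (5 * i + k)) : ℝ)
            * z (25 + (4 * j + i))
          + (mcB (qq mu1 mu2 mu0 j i k) (th j i k) (lo (25 + (4 * j + i)))
              (hi (25 + (4 * j + i))) : ℝ) * (z (5 * i + k) - hi (5 * i + k))
          + (mcC (qq mu1 mu2 mu0 j i k) (th j i k) (lo (25 + (4 * j + i)))
              (hi (25 + (4 * j + i))) : ℝ) * (z (5 * i + k) - lo (5 * i + k)) := by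
      intro j hj i hi' k hk
      rw [Finset.mem_range] at hj hi' hk
      exact mc_sound _ _ _ _ _ _ _ _ (hlo _ (by omega)) (hhi _ (by omega)) (hlo _ (by omega))
        (hhi _ (by omega))
    refine (Finset.sum_le_sum fun j hj => Finset.sum_le_sum fun i hi' =>
      Finset.sum_le_sum fun k hk => h1 j hj i hi' k hk).trans (le_of_eq ?_)
    have hsx : ∀ j i, (sx mu1 mu2 mu0 th lo hi j i : ℝ) = ∑ k ∈ range 5,
        (mcA (qq mu1 mu2 mu0 j i k) (th j i k) (lo (5 * i + k)) (hi (5 * i + k)) : ℝ) := by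
      intro j i
      have : sx mu1 mu2 mu0 th lo hi j i = sumN 5 fun k => mcA (qq mu1 mu2 mu0 j i k) (th j i k)
        (lo (5 * i + k)) (hi (5 * i + k)) := rfl
      rw [this, sumN_eq]; push_cast; rfl
    have hb1 : ∀ i k, (b1 mu1 mu2 mu0 th lo hi i k : ℝ) = ∑ j ∈ range 5,
        (mcB (qq mu1 mu2 mu0 j i k) (th j i k) (lo (25 + (4 * j + i)))
              (hi (25 + (4 * j + i))) : ℝ) := by
      intro i k
      have : b1 mu1 mu2 mu0 th lo hi i k = sumN 5 fun j => mcB (qq mu1 mu2 mu0 j i k) (th j i k)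
        (lo (25 + (4 * j + i))) (hi (25 + (4 * j + i))) := rfl
      rw [this, sumN_eq]; push_cast; rfl
    have hb2 : ∀ i k, (b2 mu1 mu2 mu0 th lo hi i k : ℝ) = ∑ j ∈ range 5,
        (mcC (qq mu1 mu2 mu0 j i k) (th j i k) (lo (25 + (4 * j + i)))
              (hi (25 + (4 * j + i))) : ℝ) := by
      intro i k
      have : b2 mu1 mu2 mu0 th lo hi i k = sumN 5 fun j => mcC (qq mu1 mu2 mu0 j i k) (th j i k)
        (lo (25 + (4 * j + i))) (hi (25 + (4 * j + i))) := rfl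
      rw [this, sumN_eq]; push_cast; rfl
    simp only [hsx, hb1, hb2, Finset.sum_add_distrib, Finset.sum_mul, ← add_assoc]
    congr 1
    · congr 1
      rw [Finset.sum_comm]
      refine Finset.sum_congr rfl fun i _ => ?_
      rw [Finset.sum_comm]
    · rw [Finset.sum_comm]
      refine Finset.sum_congr rfl fun i _ => ?_
      rw [Finset.sum_comm]
  -- the linear identities
  set Z : ℕ → ℕ → ℕ → ℝ := fun j i k => z (5 * i + k) * z (25 + (4 * j + i)) with hZ
  have hT1 : ∑ j ∈ range 5, ∑ k ∈ range 5, (mu1 j k : ℝ) * ((∑ i ∈ range 4, Z j i k)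
      + 1000 * z (20 + k) - if k = j then 1000000 else 0) = 0 := by
    refine Finset.sum_eq_zero fun j hj => Finset.sum_eq_zero fun k hk => ?_
    rw [hz.e1 j hj k hk]; simp
  have hT2 : ∑ i ∈ range 4, (mu2 i : ℝ) * ((∑ j ∈ range 5, Z j i j) - 1000000) = 0 := by
    refine Finset.sum_eq_zero fun i hi' => ?_
    rw [hz.e2 i hi']; simp
  have hT3 : ∑ j ∈ range 5, ∑ i ∈ range 4, (mu0 j i : ℝ) * (∑ k ∈ range 5, Z j i k) = 0 := by
    refine Finset.sum_eq_zero fun j hj => Finset.sum_eq_zero fun i hi' => ?_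
    rw [hZ]
    simp only
    rw [← Finset.sum_mul, hz.e3 i hi']; simp
  have hT4 : (∑ i ∈ range 4, (nu i : ℝ) * (∑ k ∈ range 5, z (5 * i + k)))
      + (nu 4 : ℝ) * ((∑ k ∈ range 5, z (20 + k)) - 1000) = 0 := by
    rw [hz.e4]
    have : ∑ i ∈ range 4, (nu i : ℝ) * (∑ k ∈ range 5, z (5 * i + k)) = 0 :=
      Finset.sum_eq_zero fun i hi' => by rw [hz.e3 i hi']; simp
    rw [this]; simp
  have hT5 : 0 ≤ ∑ w ∈ range 16, (623000 * ((maxN 5 fun k => rho w k : ℕ) : ℝ)
      + 1000 * ∑ k ∈ range 5, (rho w k : ℝ) * ∑ i ∈ range 5, bit w i * z (5 * i + k)) := by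
    refine Finset.sum_nonneg fun w hw => ?_
    have h1 := hz.vv w hw
    have h2 : ∑ k ∈ range 5, (rho w k : ℝ) * (-∑ i ∈ range 5, bit w i * z (5 * i + k))
        ≤ ((maxN 5 fun k => rho w k : ℕ) : ℝ) * 623 := by
      calc ∑ k ∈ range 5, (rho w k : ℝ) * (-∑ i ∈ range 5, bit w i * z (5 * i + k))
          ≤ ∑ k ∈ range 5, ((maxN 5 fun k => rho w k : ℕ) : ℝ)
            * max 0 (-∑ i ∈ range 5, bit w i * z (5 * i + k)) := by
            refine Finset.sum_le_sum fun k hk => ?_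
            have g1 : (rho w k : ℝ) ≤ ((maxN 5 fun k => rho w k : ℕ) : ℝ) := by
              exact_mod_cast le_maxN 5 (fun k => rho w k) k (Finset.mem_range.mp hk)
            calc (rho w k : ℝ) * (-∑ i ∈ range 5, bit w i * z (5 * i + k))
                ≤ (rho w k : ℝ) * max 0 (-∑ i ∈ range 5, bit w i * z (5 * i + k)) :=
                  mul_le_mul_of_nonneg_left (le_max_right _ _) (Nat.cast_nonneg _)
              _ ≤ _ := mul_le_mul_of_nonneg_right g1 (le_max_left _ _)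
        _ = ((maxN 5 fun k => rho w k : ℕ) : ℝ)
            * ∑ k ∈ range 5, max 0 (-∑ i ∈ range 5, bit w i * z (5 * i + k)) := by
            rw [Finset.mul_sum]
        _ ≤ _ := mul_le_mul_of_nonneg_left h1 (Nat.cast_nonneg _)
    have h3 : ∑ k ∈ range 5, (rho w k : ℝ) * (-∑ i ∈ range 5, bit w i * z (5 * i + k))
        = - ∑ k ∈ range 5, (rho w k : ℝ) * ∑ i ∈ range 5, bit w i * z (5 * i + k) := by
      rw [← Finset.sum_neg_distrib]
      exact Finset.sum_congr rfl fun k _ => by ring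
    rw [h3] at h2
    linarith
  have hT6 := symC_sum sA sB z
  -- rearrangements
  have ha : ∑ j ∈ range 5, ∑ k ∈ range 5, (mu1 j k : ℝ) * ((∑ i ∈ range 4, Z j i k)
      + 1000 * z (20 + k) - if k = j then 1000000 else 0)
      = ∑ j ∈ range 5, ∑ i ∈ range 4, ∑ k ∈ range 5, (mu1 j k : ℝ) * Z j i k
        + ∑ k ∈ range 5, 1000 * (∑ j ∈ range 5, (mu1 j k : ℝ)) * z (20 + k)
        - 1000000 * ∑ j ∈ range 5, (mu1 j j : ℝ) := by
    have g1 : ∀ j ∈ range 5, ∑ k ∈ range 5, (mu1 j k : ℝ) * ((∑ i ∈ range 4, Z j i k)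
        + 1000 * z (20 + k) - if k = j then 1000000 else 0)
        = (∑ i ∈ range 4, ∑ k ∈ range 5, (mu1 j k : ℝ) * Z j i k)
          + (∑ k ∈ range 5, 1000 * (mu1 j k : ℝ) * z (20 + k)) - 1000000 * (mu1 j j : ℝ) := by
      intro j hj
      have e1 : ∀ k, (mu1 j k : ℝ) * ((∑ i ∈ range 4, Z j i k) + 1000 * z (20 + k)
          - if k = j then 1000000 else 0)
          = (∑ i ∈ range 4, (mu1 j k : ℝ) * Z j i k) + 1000 * (mu1 j k : ℝ) * z (20 + k)
            - (if k = j then 1000000 * (mu1 j k : ℝ) else 0) := by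
        intro k
        rw [← Finset.mul_sum]
        split_ifs <;> ring
      simp only [e1]
      rw [Finset.sum_sub_distrib, Finset.sum_add_distrib, Finset.sum_comm,
        Finset.sum_ite_eq' (range 5) j, if_pos hj]
    rw [Finset.sum_congr rfl g1, Finset.sum_sub_distrib, Finset.sum_add_distrib,
      Finset.mul_sum]
    congr 2
    rw [Finset.sum_comm]
    refine Finset.sum_congr rfl fun k _ => ?_
    rw [Finset.mul_sum, Finset.sum_mul]
  have hb : ∑ i ∈ range 4, (mu2 i : ℝ) * ((∑ j ∈ range 5, Z j i j) - 1000000)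
      = ∑ j ∈ range 5, ∑ i ∈ range 4, ∑ k ∈ range 5, (if k = j then (mu2 i : ℝ) else 0) * Z j i k
        - 1000000 * ∑ i ∈ range 4, (mu2 i : ℝ) := by
    have g1 : ∀ j ∈ range 5, ∀ i, ∑ k ∈ range 5, (if k = j then (mu2 i : ℝ) else 0) * Z j i k
        = (mu2 i : ℝ) * Z j i j := by
      intro j hj i
      simp only [ite_mul, zero_mul]
      rw [Finset.sum_ite_eq' (range 5) j, if_pos hj]
    rw [Finset.sum_congr rfl fun j hj => Finset.sum_congr rfl fun i _ => g1 j hj i,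
      Finset.sum_comm, Finset.mul_sum, ← Finset.sum_sub_distrib]
    refine Finset.sum_congr rfl fun i _ => ?_
    rw [mul_sub, Finset.mul_sum]; ring
  have hc : ∑ j ∈ range 5, ∑ i ∈ range 4, (mu0 j i : ℝ) * (∑ k ∈ range 5, Z j i k)
      = ∑ j ∈ range 5, ∑ i ∈ range 4, ∑ k ∈ range 5, (mu0 j i : ℝ) * Z j i k :=
    Finset.sum_congr rfl fun j _ => Finset.sum_congr rfl fun i _ => Finset.mul_sum _ _ _
  have hq : ∑ j ∈ range 5, ∑ i ∈ range 4, ∑ k ∈ range 5,
      (qq mu1 mu2 mu0 j i k : ℝ) * (z (5 * i + k) * z (25 + (4 * j + i)))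
      = ∑ j ∈ range 5, ∑ i ∈ range 4, ∑ k ∈ range 5, (mu1 j k : ℝ) * Z j i k
        + ∑ j ∈ range 5, ∑ i ∈ range 4, ∑ k ∈ range 5, (if k = j then (mu2 i : ℝ) else 0) * Z j i k
        + ∑ j ∈ range 5, ∑ i ∈ range 4, ∑ k ∈ range 5, (mu0 j i : ℝ) * Z j i k := by
    simp only [← Finset.sum_add_distrib]
    refine Finset.sum_congr rfl fun j _ => Finset.sum_congr rfl fun i _ =>
      Finset.sum_congr rfl fun k _ => ?_
    rw [qq_eq, hZ]
    push_cast
    ring
  have hrl : ∀ i k, (rl nu rho sA sB i k : ℝ) = 1000 * (∑ w ∈ range 16, bit w i * (rho w k : ℝ))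
      + (nu i : ℝ) + (symC sA sB (5 * i + k) : ℝ) := by
    intro i k
    have : rl nu rho sA sB i k = ((1000 * (sumP 16 fun w => ((w + 16) >>> i) % 2 * rho w k) : ℕ) : ℤ)
      + nu i + symC sA sB (5 * i + k) := rfl
    rw [this, sumP_eq]
    push_cast
    rfl
  have hd : ∑ i ∈ range 5, ∑ k ∈ range 5, (rl nu rho sA sB i k : ℝ) * z (5 * i + k)
      = ∑ w ∈ range 16, (1000 * ∑ k ∈ range 5, (rho w k : ℝ) * ∑ i ∈ range 5, bit w i * z (5 * i + k))
        + ((∑ i ∈ range 4, (nu i : ℝ) * (∑ k ∈ range 5, z (5 * i + k)))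
          + (nu 4 : ℝ) * (∑ k ∈ range 5, z (20 + k)))
        + ∑ i ∈ range 5, ∑ k ∈ range 5, (symC sA sB (5 * i + k) : ℝ) * z (5 * i + k) := by
    have g1 : ∀ i k, (rl nu rho sA sB i k : ℝ) * z (5 * i + k)
        = (∑ w ∈ range 16, 1000 * ((rho w k : ℝ) * (bit w i * z (5 * i + k))))
          + (nu i : ℝ) * z (5 * i + k) + (symC sA sB (5 * i + k) : ℝ) * z (5 * i + k) := by
      intro i k
      rw [hrl, add_mul, add_mul]
      congr 2
      rw [Finset.mul_sum, Finset.sum_mul]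
      exact Finset.sum_congr rfl fun w _ => by ring
    simp only [g1]
    simp only [Finset.sum_add_distrib]
    congr 2
    · rw [Finset.sum_congr rfl fun i (_ : i ∈ range 5) => Finset.sum_comm, Finset.sum_comm]
      refine Finset.sum_congr rfl fun w _ => ?_
      rw [Finset.mul_sum, Finset.sum_comm]
      refine Finset.sum_congr rfl fun k _ => ?_
      rw [Finset.mul_sum, Finset.mul_sum]
    · rw [Finset.sum_range_succ (fun i => ∑ k ∈ range 5, (nu i : ℝ) * z (5 * i + k)) 4]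
      congr 1
      · exact Finset.sum_congr rfl fun i _ => (Finset.mul_sum _ _ _).symm
      · rw [Finset.mul_sum]
  have hkk : (kk mu1 mu2 nu rho : ℝ) = (∑ w ∈ range 16, 623000 * ((maxN 5 fun k => rho w k : ℕ) : ℝ))
      - (1000000 * ((∑ j ∈ range 5, (mu1 j j : ℝ)) + ∑ i ∈ range 4, (mu2 i : ℝ))
        + 1000 * (nu 4 : ℝ)) := by
    have : kk mu1 mu2 nu rho = ((623000 * (sumP 16 fun w => (maxN 5 fun k => rho w k)) : ℕ) : ℤ)
      - (1000000 * ((sumN 5 fun j => mu1 j j) + (sumN 4 fun i => mu2 i)) + 1000 * nu 4) := rfl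
    rw [this, sumP_eq, sumN_eq, sumN_eq, ← Finset.mul_sum]
    push_cast
    rfl
  have huu : (uu mu1 mu2 mu0 nu th rho sA sB lo hi : ℝ) = (kk mu1 mu2 nu rho : ℝ)
      + (∑ k ∈ range 5, (linB (rl nu rho sA sB 4 k + 1000 * (sumN 5 fun j => mu1 j k))
          (lo (20 + k)) (hi (20 + k)) : ℝ))
      + (∑ i ∈ range 4, ∑ k ∈ range 5, (linC (rl nu rho sA sB i k)
          (b1 mu1 mu2 mu0 th lo hi i k) (b2 mu1 mu2 mu0 th lo hi i k)
          (lo (5 * i + k)) (hi (5 * i + k)) : ℝ))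
      + ∑ j ∈ range 5, ∑ i ∈ range 4, (linB (sx mu1 mu2 mu0 th lo hi j i)
          (lo (25 + (4 * j + i))) (hi (25 + (4 * j + i))) : ℝ) := by
    have : uu mu1 mu2 mu0 nu th rho sA sB lo hi = (kk mu1 mu2 nu rho)
      + (sumN 5 fun k => (linB (rl nu rho sA sB 4 k + 1000 * (sumN 5 fun j => mu1 j k))
          (lo (20 + k)) (hi (20 + k))))
      + (sumN 4 fun i => sumN 5 fun k => (linC (rl nu rho sA sB i k)
          (b1 mu1 mu2 mu0 th lo hi i k) (b2 mu1 mu2 mu0 th lo hi i k)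
          (lo (5 * i + k)) (hi (5 * i + k))))
      + (sumN 5 fun j => sumN 4 fun i => (linB (sx mu1 mu2 mu0 th lo hi j i)
          (lo (25 + (4 * j + i))) (hi (25 + (4 * j + i))))) := rfl
    rw [this]
    simp only [sumN_eq]
    push_cast
    rfl
  have hl1 : ∑ k ∈ range 5, ((rl nu rho sA sB 4 k : ℝ) * z (20 + k)
      + 1000 * (∑ j ∈ range 5, (mu1 j k : ℝ)) * z (20 + k))
      ≤ ∑ k ∈ range 5, (linB (rl nu rho sA sB 4 k + 1000 * (sumN 5 fun j => mu1 j k))
          (lo (20 + k)) (hi (20 + k)) : ℝ) := by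
    refine Finset.sum_le_sum fun k hk => ?_
    rw [Finset.mem_range] at hk
    refine le_trans (le_of_eq ?_) (linB_sound _ _ _ (z (20 + k)) (hlo _ (by omega))
      (hhi _ (by omega)))
    rw [sumN_eq]
    push_cast
    ring
  have hl2 : ∑ i ∈ range 4, ∑ k ∈ range 5, ((rl nu rho sA sB i k : ℝ) * z (5 * i + k)
      + ((b1 mu1 mu2 mu0 th lo hi i k : ℝ) * (z (5 * i + k) - hi (5 * i + k))
          + (b2 mu1 mu2 mu0 th lo hi i k : ℝ) * (z (5 * i + k) - lo (5 * i + k))))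
      ≤ ∑ i ∈ range 4, ∑ k ∈ range 5, (linC (rl nu rho sA sB i k)
          (b1 mu1 mu2 mu0 th lo hi i k) (b2 mu1 mu2 mu0 th lo hi i k)
          (lo (5 * i + k)) (hi (5 * i + k)) : ℝ) := by
    refine Finset.sum_le_sum fun i hi' => Finset.sum_le_sum fun k hk => ?_
    rw [Finset.mem_range] at hi' hk
    exact linC_sound _ _ _ _ _ _ (hlo _ (by omega)) (hhi _ (by omega))
  have hl3 : ∑ j ∈ range 5, ∑ i ∈ range 4, (sx mu1 mu2 mu0 th lo hi j i : ℝ) * z (25 + (4 * j + i))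
      ≤ ∑ j ∈ range 5, ∑ i ∈ range 4, (linB (sx mu1 mu2 mu0 th lo hi j i)
          (lo (25 + (4 * j + i))) (hi (25 + (4 * j + i))) : ℝ) := by
    refine Finset.sum_le_sum fun j hj => Finset.sum_le_sum fun i hi' => ?_
    rw [Finset.mem_range] at hi' hj
    exact linB_sound _ _ _ _ (hlo _ (by omega)) (hhi _ (by omega))
  rw [ha] at hT1
  rw [hb] at hT2
  rw [hc] at hT3
  rw [Finset.sum_add_distrib] at hT5 hl1
  simp only [Finset.sum_add_distrib] at hl2 hbil hT5
  have hsp : ∑ i ∈ range 5, ∑ k ∈ range 5, (rl nu rho sA sB i k : ℝ) * z (5 * i + k)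
      = ∑ i ∈ range 4, ∑ k ∈ range 5, (rl nu rho sA sB i k : ℝ) * z (5 * i + k)
        + ∑ k ∈ range 5, (rl nu rho sA sB 4 k : ℝ) * z (20 + k) := by
    rw [Finset.sum_range_succ (fun i => ∑ k ∈ range 5, (rl nu rho sA sB i k : ℝ) * z (5 * i + k)) 4]
  have hfin : (0 : ℝ) ≤ (uu mu1 mu2 mu0 nu th rho sA sB lo hi : ℝ) := by
    rw [huu]
    linarith
  exact_mod_cast hfin

/-- Getter of a packed vector after a setter. -/
theorem bd_setF (b n p m : ℕ) (hp : p < 65536) :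
    bd (setF b n p) m = if m = n then (p : ℤ) - 32768 else bd b m := by
  have hset : setF b n p = b ^^^ ((((b >>> (16 * n)) % 2 ^ 16) ^^^ p) <<< (16 * n)) := rfl
  have hbd : ∀ b m, bd b m = (((b >>> (16 * m)) % 2 ^ 16 : ℕ) : ℤ) - 32768 := by
    intro b m
    have : bd b m = Int.subNatNat ((b >>> (16 * m)) % 2 ^ 16) 32768 := rfl
    rw [this, Int.subNatNat_eq_coe]; norm_num
  have key : (setF b n p >>> (16 * m)) % 2 ^ 16
      = if m = n then p else (b >>> (16 * m)) % 2 ^ 16 := by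
    apply Nat.eq_of_testBit_eq
    intro j
    have hpb : ∀ j, 16 ≤ j → p.testBit j = false := fun j hj =>
      Nat.testBit_lt_two_pow (lt_of_lt_of_le hp (by
        calc 65536 = 2 ^ 16 := by norm_num
          _ ≤ 2 ^ j := Nat.pow_le_pow_right (by norm_num) hj))
    rw [hset]
    split_ifs with h
    · subst h
      simp only [Nat.testBit_mod_two_pow, Nat.testBit_shiftRight, Nat.testBit_xor,
        Nat.testBit_shiftLeft]
      by_cases hj : j < 16
      · have h1 : 16 * m ≤ 16 * m + j := by omega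
        have h2 : 16 * m + j - 16 * m = j := by omega
        simp [hj, h1, h2]
      · rw [hpb j (by omega)]; simp [hj]
    · simp only [Nat.testBit_mod_two_pow, Nat.testBit_shiftRight, Nat.testBit_xor,
        Nat.testBit_shiftLeft]
      by_cases hj : j < 16
      · simp only [hj, decide_true, Bool.true_and]
        by_cases hle : 16 * n ≤ 16 * m + j
        · have h3 : ¬ (16 * m + j - 16 * n < 16) := by omega
          have h4 : p.testBit (16 * m + j - 16 * n) = false := hpb _ (by omega)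
          simp [hle, h3, h4]
        · simp [hle]
      · simp [hj]
  rw [hbd, hbd, key]
  split_ifs with h
  · rfl
  · rfl

/-- The box of the packed vector `b`. -/
def InBox (b : ℕ) (z : ℕ → ℝ) : Prop :=
  ∀ u < 45, (bd b (2 * u) : ℝ) ≤ z u ∧ z u ≤ (bd b (2 * u + 1) : ℝ)

theorem leafOK_sound (fA fB b c : ℕ) (z : ℕ → ℝ) (hz : Sys z)
    (hA : fA = 0 ∨ z 17 ≤ z 18) (hB : fB = 0 ∨ z 18 ≤ z 19) (hb : InBox b z)
    (h : leafOK fA fB b c = true) : False := by
  have hA' : ∀ x : ℕ, 0 ≤ ((fA * x : ℕ) : ℝ) * (z 18 - z 17) := by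
    intro x
    rcases hA with h | h
    · simp [h]
    · exact mul_nonneg (Nat.cast_nonneg _) (by linarith)
  have hB' : ∀ x : ℕ, 0 ≤ ((fB * x : ℕ) : ℝ) * (z 19 - z 18) := by
    intro x
    rcases hB with h | h
    · simp [h]
    · exact mul_nonneg (Nat.cast_nonneg _) (by linarith)
  unfold leafOK leafOK' at h
  revert h
  have key := leaf_sound
      (fun j k => fldZ (Nat.shiftRight c 288) (Nat.mod c 256) (Nat.pow 2 (Nat.mod c 256))
        (Nat.pow 2 (Nat.sub (Nat.mod c 256) 1)) (Nat.add (Nat.mul 5 j) k))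
      (fun i => fldZ (Nat.shiftRight c 288) (Nat.mod c 256) (Nat.pow 2 (Nat.mod c 256))
        (Nat.pow 2 (Nat.sub (Nat.mod c 256) 1)) (Nat.add 25 i))
      (fun j i => fldZ (Nat.shiftRight c 288) (Nat.mod c 256) (Nat.pow 2 (Nat.mod c 256))
        (Nat.pow 2 (Nat.sub (Nat.mod c 256) 1)) (Nat.add 29 (Nat.add (Nat.mul 4 j) i)))
      (fun i => fldZ (Nat.shiftRight c 8) 40 1099511627776 549755813888 i)
      (fun j i k => fldN (Nat.shiftRight c 288) (Nat.mod c 256) (Nat.pow 2 (Nat.mod c 256))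
        (Nat.add 49 (Nat.add (Nat.mul 20 j) (Nat.add (Nat.mul 5 i) k))))
      (fun w k => fldN (Nat.shiftRight c 288) (Nat.mod c 256) (Nat.pow 2 (Nat.mod c 256))
        (Nat.add 149 (Nat.add (Nat.mul 5 w) k)))
      (Nat.mul fA (fldN (Nat.shiftRight c 8) 40 1099511627776 5))
      (Nat.mul fB (fldN (Nat.shiftRight c 8) 40 1099511627776 6))
      (fun u => bd b (Nat.mul 2 u)) (fun u => bd b (Nat.add (Nat.mul 2 u) 1)) z hz
      (fun u hu => (hb u hu).1) (fun u hu => (hb u hu).2) (hA' _) (hB' _)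
  revert key
  generalize uu _ _ _ _ _ _ _ _ _ _ = U
  intro key h
  rcases U with n | m
  · exact Bool.false_ne_true h
  · omega

theorem treeOK_sound (fA fB : ℕ) (t : Tree) (z : ℕ → ℝ) (hz : Sys z)
    (hA : fA = 0 ∨ z 17 ≤ z 18) (hB : fB = 0 ∨ z 18 ≤ z 19) (b : ℕ) (hb : InBox b z)
    (h : treeOK fA fB t b = true) : False := by
  induction t generalizing b with
  | leaf c => exact leafOK_sound fA fB b c z hz hA hB hb h
  | split u p l r ihl ihr =>
    have h' : (Nat.blt p 65536 && (treeOK fA fB l (setF b (2 * u + 1) p)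
      && treeOK fA fB r (setF b (2 * u) p))) = true := h
    rw [Bool.and_eq_true, Bool.and_eq_true] at h'
    obtain ⟨h1, h2, h3⟩ := h'
    have hp : p < 65536 := Nat.blt_eq.mp h1
    rcases le_total (z u) ((p : ℝ) - 32768) with hc | hc
    · refine ihl (setF b (2 * u + 1) p) (fun v hv => ⟨?_, ?_⟩) h2
      · rw [bd_setF _ _ _ _ hp, if_neg (by omega)]; exact (hb v hv).1
      · rw [bd_setF _ _ _ _ hp]
        split_ifs with hh
        · have : v = u := by omega
          subst this; push_cast; exact hc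
        · exact (hb v hv).2
    · refine ihr (setF b (2 * u) p) (fun v hv => ⟨?_, ?_⟩) h3
      · rw [bd_setF _ _ _ _ hp]
        split_ifs with hh
        · have : v = u := by omega
          subst this; push_cast; exact hc
        · exact (hb v hv).1
      · rw [bd_setF _ _ _ _ hp, if_neg (by omega)]; exact (hb v hv).2

end Pool.Agent.Lib.MPf310b7
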