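import Pool.Agent.Lib.MP_f310b7_an.Table

set_option autoImplicit false

/-! Reduction of the injective families of five vertices to the representatives. -/

namespace Pool.Agent.Lib.MPf310b7

theorem allN_eq (n : ℕ) (f : ℕ → Bool) : allN n f = true ↔ ∀ k < n, f k = true := by
  induction n with
  | zero => simp [allN]
  | succ n ih =>
    have h : allN (n + 1) f = (f n && allN n f) := rfl
    rw [h, Bool.and_eq_true, ih]
    constructor
    · rintro ⟨h1, h2⟩ k hk
      rcases Nat.lt_succ_iff_lt_or_eq.mp hk with h | h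
      · exact h2 k h
      · rw [h]; exact h1
    · intro hh
      exact ⟨hh n (by omega), fun k hk => hh k (by omega)⟩

theorem mod2_eq (x i : ℕ) : Nat.mod (Nat.shiftRight x i) 2 = (Nat.testBit x i).toNat := by
  rw [Nat.toNat_testBit]
  show (x >>> i) % 2 = _
  rw [Nat.shiftRight_eq_div_pow]

/-- The meaning of the check of an entry. -/
theorem entry_sound (e p : ℕ) (h : entryOK e p = true) :
    ∃ cl < 27, ∃ φ : Equiv.Perm (Fin 5), ∃ τ : Equiv.Perm (Fin 4), ∃ f : Fin 4 → Bool,
      ∀ (k : Fin 5) (i : Fin 4), Nat.testBit (rep cl (φ k)) i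
        = (Nat.testBit p (4 * k + (τ i : ℕ)) ^^ f i) := by
  unfold entryOK at h
  rw [Bool.and_eq_true, Bool.and_eq_true, Bool.and_eq_true, Bool.and_eq_true] at h
  obtain ⟨h1, h2, h3, h4, h5⟩ := h
  have h1' : e % 32 < 27 := Nat.blt_eq.mp h1
  have inj : ∀ (n : ℕ) (g : ℕ → ℕ), (allN n fun i => allN i fun j => !(Nat.beq (g i) (g j))) = true →
      ∀ i < n, ∀ j < n, g i = g j → i = j := by
    intro n g hh i hi j hj hg
    rw [allN_eq] at hh
    rcases lt_trichotomy i j with hlt | heq | hgt
    · have := hh j hj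
      rw [allN_eq] at this
      have h := this i hlt
      rw [hg] at h; simp at h
    · exact heq
    · have := hh i hi
      rw [allN_eq] at this
      have h := this j hgt
      rw [hg] at h; simp at h
  have h2' := inj 4 (fun i => tt e i) h2
  have h4' := inj 5 (fun i => ph e i) h4
  rw [allN_eq] at h3 h5
  have h3' : ∀ k < 5, ph e k < 5 := fun k hk => Nat.blt_eq.mp (h3 k hk)
  have ht : ∀ i, tt e i < 4 := fun i => Nat.mod_lt _ (by norm_num)
  have hφ : Function.Bijective (fun k : Fin 5 => (⟨ph e k, h3' k k.isLt⟩ : Fin 5)) := by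
    rw [← Finite.injective_iff_bijective]
    intro a b hab
    exact Fin.ext (h4' a a.isLt b b.isLt (by simpa using congrArg Fin.val hab))
  have hτ : Function.Bijective (fun i : Fin 4 => (⟨tt e i, ht i⟩ : Fin 4)) := by
    rw [← Finite.injective_iff_bijective]
    intro a b hab
    exact Fin.ext (h2' a a.isLt b b.isLt (by simpa using congrArg Fin.val hab))
  refine ⟨e % 32, h1', Equiv.ofBijective _ hφ, Equiv.ofBijective _ hτ,
    fun i => Nat.testBit e (13 + i), fun k i => ?_⟩
  have h6 := h5 k k.isLt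
  rw [allN_eq] at h6
  have h7 := Nat.eq_of_beq_eq_true (h6 i i.isLt)
  rw [mod2_eq, mod2_eq, mod2_eq] at h7
  simp only [Equiv.ofBijective_apply]
  change (Nat.testBit (rep (e % 32) (ph e k)) i).toNat
    = ((Nat.testBit p (4 * k + tt e i)).toNat + (Nat.testBit e (13 + i)).toNat) % 2 at h7
  revert h7
  cases Nat.testBit (rep (e % 32) (ph e k)) i <;> cases Nat.testBit p (4 * k + tt e i) <;>
    cases Nat.testBit e (13 + i) <;> simp

/-- Code of a vertex. -/
def code (w : Fin 4 → Bool) : ℕ :=
  (w 0).toNat + 2 * (w 1).toNat + 4 * (w 2).toNat + 8 * (w 3).toNat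

theorem code_testBit : ∀ (w : Fin 4 → Bool) (i : Fin 4), Nat.testBit (code w) i = w i := by decide

theorem code_lt : ∀ (w : Fin 4 → Bool), code w < 16 := by decide

theorem code_inj {w w' : Fin 4 → Bool} (h : code w = code w') : w = w' := by
  funext i
  rw [← code_testBit w, ← code_testBit w', h]

theorem pk_testBit (p1 p2 p3 p4 : ℕ) (h1 : p1 < 16) (h2 : p2 < 16) (h3 : p3 < 16) (k : Fin 5)
    (i : ℕ) (hi : i < 4) :
    Nat.testBit (pk p1 p2 p3 p4) (4 * k + i) = Nat.testBit ((![0, p1, p2, p3, p4] : Fin 5 → ℕ) k) i := by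
  have hpk : pk p1 p2 p3 p4 = 16 * (p1 + 16 * (p2 + 16 * (p3 + 16 * p4))) := rfl
  have step : ∀ a b j : ℕ, a < 16 → Nat.testBit (a + 16 * b) j
      = if j < 4 then Nat.testBit a j else Nat.testBit b (j - 4) := by
    intro a b j ha
    have := Nat.testBit_two_pow_mul_add b (i := 4) (b := a) (by norm_num; exact ha) j
    rw [show a + 16 * b = 2 ^ 4 * b + a by ring]
    exact this
  have h0 : pk p1 p2 p3 p4 = 0 + 16 * (p1 + 16 * (p2 + 16 * (p3 + 16 * p4))) := by rw [hpk]; ring
  rw [h0]
  fin_cases k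
  · show Nat.testBit _ (4 * 0 + i) = _
    rw [step _ _ _ (by norm_num), if_pos (by omega)]; simp
  · show Nat.testBit _ (4 * 1 + i) = _
    rw [step _ _ _ (by norm_num), if_neg (by omega), step _ _ _ h1, if_pos (by omega)]
    rw [show 4 * 1 + i - 4 = i by omega]; rfl
  · show Nat.testBit _ (4 * 2 + i) = _
    rw [step _ _ _ (by norm_num), if_neg (by omega), step _ _ _ h1, if_neg (by omega),
      step _ _ _ h2, if_pos (by omega)]
    rw [show 4 * 2 + i - 4 - 4 = i by omega]; rfl
  · show Nat.testBit _ (4 * 3 + i) = _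
    rw [step _ _ _ (by norm_num), if_neg (by omega), step _ _ _ h1, if_neg (by omega),
      step _ _ _ h2, if_neg (by omega), step _ _ _ h3, if_pos (by omega)]
    rw [show 4 * 3 + i - 4 - 4 - 4 = i by omega]; rfl
  · show Nat.testBit _ (4 * 4 + i) = _
    rw [step _ _ _ (by norm_num), if_neg (by omega), step _ _ _ h1, if_neg (by omega),
      step _ _ _ h2, if_neg (by omega), step _ _ _ h3, if_neg (by omega)]
    rw [show 4 * 4 + i - 4 - 4 - 4 - 4 = i by omega]; rfl

/-- Every injective family of five vertices is equivalent to a representative. -/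
theorem exists_sym (v : Fin 5 → Fin 4 → Bool) (hv : Function.Injective v) :
    ∃ cl < 27, ∃ σ : Equiv.Perm (Fin 5), ∃ τ : Equiv.Perm (Fin 4), ∃ f : Fin 4 → Bool,
      ∀ (k : Fin 5) (i : Fin 4), Nat.testBit (rep cl k) i = (v (σ k) (τ i) ^^ f i) := by
  set v1 : Fin 5 → Fin 4 → Bool := fun k i => v k i ^^ v 0 i with hv1
  have hinj1 : Function.Injective v1 := by
    intro a b hab
    apply hv
    funext i
    have := congrFun hab i
    simp only [hv1] at this
    revert this
    cases v a i <;> cases v b i <;> cases v 0 i <;> simp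
  set q : Fin 5 → ℕ := fun k => code (v1 k) with hq
  have hqinj : Function.Injective q := fun a b hab => hinj1 (code_inj hab)
  set s := Tuple.sort q with hs
  have hmono : StrictMono (q ∘ s) :=
    (Tuple.monotone_sort q).strictMono_of_injective (hqinj.comp s.injective)
  have hq0 : q 0 = 0 := by
    have : v1 0 = fun _ => false := by funext i; simp [hv1]
    rw [hq]; simp only [this]; rfl
  have hs0 : q (s 0) = 0 := by
    have h1 : (q ∘ s) 0 ≤ (q ∘ s) (s.symm 0) := hmono.monotone (Fin.zero_le _)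
    simp only [Function.comp, Equiv.apply_symm_apply, hq0] at h1
    omega
  have m1 : q (s 0) < q (s 1) := hmono (by decide)
  have m2 : q (s 1) < q (s 2) := hmono (by decide)
  have m3 : q (s 2) < q (s 3) := hmono (by decide)
  have m4 : q (s 3) < q (s 4) := hmono (by decide)
  have m5 : q (s 4) < 16 := code_lt _
  have ht := table_ok
  rw [allN_eq] at ht
  have ht4 := ht (q (s 4)) m5
  rw [allN_eq] at ht4
  have ht3 := ht4 (q (s 3)) m4
  rw [allN_eq] at ht3
  have ht2 := ht3 (q (s 2)) m3
  rw [allN_eq] at ht2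
  have ht1 := ht2 (q (s 1)) m2
  rw [Bool.or_eq_true] at ht1
  rcases ht1 with h | h
  · have := Nat.eq_of_beq_eq_true h
    omega
  obtain ⟨cl, hcl, φ, τ, f, hh⟩ := entry_sound _ _ h
  refine ⟨cl, hcl, φ.symm.trans s, τ, fun i => v 0 (τ i) ^^ f i, fun k i => ?_⟩
  have h1 := hh (φ.symm k) i
  rw [Equiv.apply_symm_apply, pk_testBit _ _ _ _ (by omega) (by omega) (by omega) _ _ (τ i).isLt] at h1
  have h2 : (![0, q (s 1), q (s 2), q (s 3), q (s 4)] : Fin 5 → ℕ) (φ.symm k) = q (s (φ.symm k)) := by
    generalize φ.symm k = a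
    fin_cases a
    · exact hs0.symm
    all_goals rfl
  rw [h2, hq] at h1
  simp only at h1
  rw [code_testBit, hv1] at h1
  rw [h1]
  simp only [Equiv.trans_apply]
  cases v (s (φ.symm k)) (τ i) <;> cases v 0 (τ i) <;> cases f i <;> rfl

end Pool.Agent.Lib.MPf310b7
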